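import Mathlib

set_option autoImplicit false
namespace Pool.Agent.Helper277.ZG.Kos

theorem ker_fg_conj {G : Type} [Group G] (S : Set G) (W : Subgroup G) (x : G)
    (h : ∀ s ∈ S, x⁻¹ * s * x ∈ W) :
    ∀ w ∈ Subgroup.closure S, x⁻¹ * w * x ∈ W := by
  intro w hw
  induction hw using Subgroup.closure_induction with
  | mem s hs => exact h s hs
  | one => simp [W.one_mem]
  | mul a b _ _ ha hb =>
    have : x⁻¹ * (a * b) * x = (x⁻¹ * a * x) * (x⁻¹ * b * x) := by group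
    rw [this]
    exact W.mul_mem ha hb
  | inv a _ ha =>
    have : x⁻¹ * a⁻¹ * x = (x⁻¹ * a * x)⁻¹ := by group
    rw [this]
    exact W.inv_mem ha

theorem ker_fg_engel {G : Type} [Group G] (x y : G) (i : ℕ) :
    ∃ w ∈ Subgroup.closure ((fun j : ℕ => x ^ (-(j : ℤ)) * y * x ^ (j : ℤ)) '' {j | j < i}),
      (fun z : G => z⁻¹ * x⁻¹ * z * x)^[i] y = w * (x ^ (-(i : ℤ)) * y * x ^ (i : ℤ)) := by
  induction i with
  | zero => exact ⟨1, Subgroup.one_mem _, by simp⟩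
  | succ i ih =>
    obtain ⟨w, hw, he⟩ := ih
    set T : Set G := (fun j : ℕ => x ^ (-(j : ℤ)) * y * x ^ (j : ℤ)) '' {j | j < i + 1} with hT
    have h1 : w ∈ Subgroup.closure T := by
      apply Subgroup.closure_mono _ hw
      apply Set.image_mono
      intro j hj
      have : j < i := hj
      show j < i + 1
      omega
    have h2 : x ^ (-(i : ℤ)) * y * x ^ (i : ℤ) ∈ Subgroup.closure T :=
      Subgroup.subset_closure ⟨i, by show i < i + 1; omega, rfl⟩
    have h3 : x⁻¹ * w * x ∈ Subgroup.closure T := by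
      apply ker_fg_conj _ _ x _ w hw
      rintro _ ⟨j, hj, rfl⟩
      have hj' : j < i := hj
      apply Subgroup.subset_closure
      refine ⟨j + 1, by show j + 1 < i + 1; omega, ?_⟩
      push_cast
      group
    refine ⟨(x ^ (-(i : ℤ)) * y * x ^ (i : ℤ))⁻¹ * w⁻¹ * (x⁻¹ * w * x),
      Subgroup.mul_mem _ (Subgroup.mul_mem _ (Subgroup.inv_mem _ h2) (Subgroup.inv_mem _ h1)) h3, ?_⟩
    rw [Function.iterate_succ_apply', he]
    push_cast
    group

/-- kernels of maps of finitely generated Engel groups onto `ℤ` are finitely generated -/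
theorem ker_fg (G : Type) [Group G] [Group.FG G] (k : ℕ)
    (hE : ∀ x y : G, (fun z : G => z⁻¹ * y⁻¹ * z * y)^[k] x = 1)
    (φ : G →* Multiplicative ℤ) (hφ : Function.Surjective φ) : (φ.ker).FG := by
  obtain ⟨x, hx⟩ := hφ (Multiplicative.ofAdd 1)
  obtain ⟨S, hS⟩ := (Group.FG.out : (⊤ : Subgroup G).FG)
  obtain ⟨e, he⟩ : ∃ e : G → ℤ, ∀ g, e g = Multiplicative.toAdd (φ g) := ⟨_, fun _ => rfl⟩
  have e_mul : ∀ a b, e (a * b) = e a + e b := by
    intro a b; rw [he, he, he, map_mul, toAdd_mul]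
  have e_one : e 1 = 0 := by rw [he, map_one, toAdd_one]
  have e_inv : ∀ a, e a⁻¹ = - e a := by
    intro a; rw [he, he, map_inv, toAdd_inv]
  have e_x : e x = 1 := by rw [he, hx, toAdd_ofAdd]
  have e_zpow : ∀ n : ℤ, e (x ^ n) = n := by
    intro n; rw [he, map_zpow, hx, toAdd_zpow, toAdd_ofAdd, smul_eq_mul, mul_one]
  have e_ker : ∀ g, g ∈ φ.ker ↔ e g = 0 := by
    intro g
    rw [MonoidHom.mem_ker, he]
    exact (toAdd_eq_zero).symm
  -- consequences of the Engel law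
  have hE1 : ∀ x y : G, x ^ (-(k : ℤ)) * y * x ^ (k : ℤ) ∈
      Subgroup.closure ((fun j : ℕ => x ^ (-(j : ℤ)) * y * x ^ (j : ℤ)) '' {j | j < k}) := by
    intro x y
    obtain ⟨w, hw, h⟩ := ker_fg_engel x y k
    rw [hE y x] at h
    have : x ^ (-(k : ℤ)) * y * x ^ (k : ℤ) = w⁻¹ := by
      rw [eq_comm, inv_eq_iff_mul_eq_one, ← h]
    rw [this]
    exact Subgroup.inv_mem _ hw
  set T : Set G := (fun p : ℤ × G => x ^ p.1 * (p.2 * x ^ (-(e p.2))) * x ^ (-p.1)) ''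
    (Set.Icc (-(k : ℤ)) k ×ˢ (S : Set G)) with hT
  have hTfin : T.Finite := ((Set.finite_Icc _ _).prod S.finite_toSet).image _
  obtain ⟨W, hW⟩ : ∃ W, W = Subgroup.closure T := ⟨_, rfl⟩
  have hTmem : ∀ (j : ℤ) (g : G), g ∈ S → -(k : ℤ) ≤ j → j ≤ k →
      x ^ j * (g * x ^ (-(e g))) * x ^ (-j) ∈ W := by
    intro j g hg h1 h2
    rw [hW]
    exact Subgroup.subset_closure ⟨(j, g), ⟨⟨h1, h2⟩, hg⟩, rfl⟩
  have hc1 : ∀ w ∈ W, x⁻¹ * w * x ∈ W := by
    intro w hw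
    rw [hW] at hw
    apply ker_fg_conj T W x _ w hw
    rintro _ ⟨⟨j, g⟩, ⟨⟨h1, h2⟩, hg⟩, rfl⟩
    simp only at h1 h2 hg ⊢
    have e1 : x⁻¹ * (x ^ j * (g * x ^ (-(e g))) * x ^ (-j)) * x =
        x ^ (j - 1) * (g * x ^ (-(e g))) * x ^ (-(j - 1)) := by group
    rw [e1]
    by_cases hj : -(k : ℤ) ≤ j - 1
    · exact hTmem _ g hg hj (by omega)
    · have hj' : j = -(k : ℤ) := by omega
      have h3 := ker_fg_conj (W := W) (x := x) (S := (fun j : ℕ => x ^ (-(j : ℤ)) * (g * x ^ (-(e g))) *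
        x ^ (j : ℤ)) '' {j | j < k}) (by
          rintro _ ⟨i, hi, rfl⟩
          have hi' : i < k := hi
          have e2 : x⁻¹ * (x ^ (-(i : ℤ)) * (g * x ^ (-(e g))) * x ^ (i : ℤ)) * x =
            x ^ (-(i : ℤ) - 1) * (g * x ^ (-(e g))) * x ^ (-(-(i : ℤ) - 1)) := by group
          simp only
          rw [e2]
          exact hTmem _ g hg (by omega) (by omega)) _ (hE1 x (g * x ^ (-(e g))))
      have e3 : x ^ (j - 1) * (g * x ^ (-(e g))) * x ^ (-(j - 1)) =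
          x⁻¹ * (x ^ (-(k : ℤ)) * (g * x ^ (-(e g))) * x ^ (k : ℤ)) * x := by
        rw [hj']; group
      rw [e3]
      exact h3
  have hc2 : ∀ w ∈ W, x * w * x⁻¹ ∈ W := by
    intro w hw
    rw [hW] at hw
    have := ker_fg_conj T W x⁻¹ (by
      rintro _ ⟨⟨j, g⟩, ⟨⟨h1, h2⟩, hg⟩, rfl⟩
      simp only at h1 h2 hg ⊢
      have e1 : (x⁻¹)⁻¹ * (x ^ j * (g * x ^ (-(e g))) * x ^ (-j)) * x⁻¹ =
          x ^ (j + 1) * (g * x ^ (-(e g))) * x ^ (-(j + 1)) := by group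
      rw [e1]
      by_cases hj : j + 1 ≤ k
      · exact hTmem _ g hg (by omega) hj
      · have hj' : j = (k : ℤ) := by omega
        have h3 := ker_fg_conj (W := W) (x := x⁻¹) (S := (fun j : ℕ => x⁻¹ ^ (-(j : ℤ)) * (g * x ^ (-(e g))) *
          x⁻¹ ^ (j : ℤ)) '' {j | j < k}) (by
            rintro _ ⟨i, hi, rfl⟩
            have hi' : i < k := hi
            have e2 : (x⁻¹)⁻¹ * (x⁻¹ ^ (-(i : ℤ)) * (g * x ^ (-(e g))) * x⁻¹ ^ (i : ℤ)) * x⁻¹ =
              x ^ ((i : ℤ) + 1) * (g * x ^ (-(e g))) * x ^ (-((i : ℤ) + 1)) := by group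
            simp only
            rw [e2]
            exact hTmem _ g hg (by omega) (by omega)) _ (hE1 x⁻¹ (g * x ^ (-(e g))))
        have e3 : x ^ (j + 1) * (g * x ^ (-(e g))) * x ^ (-(j + 1)) =
            (x⁻¹)⁻¹ * (x⁻¹ ^ (-(k : ℤ)) * (g * x ^ (-(e g))) * x⁻¹ ^ (k : ℤ)) * x⁻¹ := by
          rw [hj']; group
        rw [e3]
        exact h3) w hw
    rwa [inv_inv] at this
  have hcz : ∀ (n : ℕ) (w : G), w ∈ W → x ^ (n : ℤ) * w * x ^ (-(n : ℤ)) ∈ W ∧
      x ^ (-(n : ℤ)) * w * x ^ (n : ℤ) ∈ W := by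
    intro n
    induction n with
    | zero => intro w hw; simpa using hw
    | succ n ih =>
      intro w hw
      constructor
      · have := hc2 _ (ih w hw).1
        have e1 : x ^ ((n + 1 : ℕ) : ℤ) * w * x ^ (-((n + 1 : ℕ) : ℤ)) =
          x * (x ^ (n : ℤ) * w * x ^ (-(n : ℤ))) * x⁻¹ := by push_cast; group
        rw [e1]; exact this
      · have := hc1 _ (ih w hw).2
        have e1 : x ^ (-((n + 1 : ℕ) : ℤ)) * w * x ^ ((n + 1 : ℕ) : ℤ) =
          x⁻¹ * (x ^ (-(n : ℤ)) * w * x ^ (n : ℤ)) * x := by push_cast; group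
        rw [e1]; exact this
  have hcz' : ∀ (n : ℤ) (w : G), w ∈ W → x ^ n * w * x ^ (-n) ∈ W := by
    intro n w hw
    obtain ⟨m, rfl | rfl⟩ := n.eq_nat_or_neg
    · exact (hcz m w hw).1
    · rw [neg_neg]; exact (hcz m w hw).2
  have hP : ∀ g : G, g * x ^ (-(e g)) ∈ W := by
    intro g
    have hg : g ∈ Subgroup.closure (S : Set G) := by rw [hS]; trivial
    induction hg using Subgroup.closure_induction with
    | mem s hs =>
      have := hTmem 0 s hs (by omega) (by omega)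
      simpa using this
    | one => rw [e_one]; simp [W.one_mem]
    | mul a b _ _ ha hb =>
      have h1 := hcz' (e a) _ hb
      have h2 := W.mul_mem ha h1
      have e1 : a * b * x ^ (-(e (a * b))) =
        a * x ^ (-(e a)) * (x ^ (e a) * (b * x ^ (-(e b))) * x ^ (-(e a))) := by
        rw [e_mul]; group
      rw [e1]; exact h2
    | inv a _ ha =>
      have h1 := hcz' (-(e a)) _ ha
      have h2 := W.inv_mem h1
      have e1 : a⁻¹ * x ^ (-(e a⁻¹)) =
        (x ^ (-(e a)) * (a * x ^ (-(e a))) * x ^ (-(-(e a))))⁻¹ := by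
        rw [e_inv]; group
      rw [e1]; exact h2
  rw [Subgroup.fg_iff]
  refine ⟨T, ?_, hTfin⟩
  rw [← hW]
  apply le_antisymm
  · rw [hW, Subgroup.closure_le]
    rintro _ ⟨⟨j, g⟩, -, rfl⟩
    show _ ∈ φ.ker
    rw [e_ker]
    simp only [e_mul, e_zpow]
    ring
  · intro n hn
    rw [e_ker] at hn
    have := hP n
    rw [hn] at this
    simpa using this

end Pool.Agent.Helper277.ZG.Kos
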