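import Mathlib

set_option autoImplicit false
namespace Pool.Agent.Helper277.ZG.Kos

/-- `t` is detected by a unipotent representation of `G` over `ℚ`. -/
def UDetect (G : Type) [Group G] (t : G) : Prop :=
  ∃ (R : Type) (_ : Ring R) (_ : Algebra ℚ R) (ρ : G →* R) (M : ℕ),
    (∀ l : List G, l.length = M → (l.map (fun g => ρ g - 1)).prod = 0) ∧ ρ t ≠ 1

section fil

variable {A : Type} [Ring A] [Algebra ℚ A]

/-- the filtration -/
def Fil (I : Submodule ℚ A) : ℕ → Submodule ℚ A
  | 0 => ⊤
  | (i + 1) => I * Fil I i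

theorem fil_left (I : Submodule ℚ A) (hl : ∀ a, ∀ u ∈ I, a * u ∈ I) (i : ℕ) (a : A) :
    ∀ u ∈ Fil I i, a * u ∈ Fil I i := by
  intro u hu
  cases i with
  | zero => exact Submodule.mem_top
  | succ i =>
    refine Submodule.mul_induction_on hu ?_ ?_
    · intro p hp q hq
      rw [← mul_assoc]
      exact Submodule.mul_mem_mul (hl a p hp) hq
    · intro p q hp hq
      rw [mul_add]
      exact (Fil I (i + 1)).add_mem hp hq

theorem fil_one (I : Submodule ℚ A) : ∀ u ∈ I, u ∈ Fil I 1 := by
  intro u hu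
  have : u * 1 ∈ Fil I 1 := Submodule.mul_mem_mul hu Submodule.mem_top
  rwa [mul_one] at this

theorem fil_one' (I : Submodule ℚ A) (hr : ∀ a, ∀ u ∈ I, u * a ∈ I) : ∀ u ∈ Fil I 1, u ∈ I := by
  intro u hu
  refine Submodule.mul_induction_on (M := I) (N := Fil I 0) hu ?_ ?_
  · intro p hp q _
    exact hr q p hp
  · intro p q hp hq
    exact I.add_mem hp hq

theorem fil_two (I : Submodule ℚ A) (hr : ∀ a, ∀ u ∈ I, u * a ∈ I) (i : ℕ) :
    ∀ u ∈ Fil I 2, ∀ v ∈ Fil I i, u * v ∈ Fil I (i + 2) := by
  intro u hu v hv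
  refine Submodule.mul_induction_on (M := I) (N := Fil I 1) hu ?_ ?_
  · intro p hp q hq
    rw [mul_assoc]
    exact Submodule.mul_mem_mul hp (Submodule.mul_mem_mul (fil_one' I hr q hq) hv)
  · intro p q hp hq
    rw [add_mul]
    exact (Fil I (i + 2)).add_mem hp hq

theorem fil_hom (I : Submodule ℚ A) (f : A →ₐ[ℚ] A) (hf : ∀ u ∈ I, f u ∈ I) (i : ℕ) :
    ∀ u ∈ Fil I i, f u ∈ Fil I i := by
  induction i with
  | zero => exact fun _ _ => Submodule.mem_top
  | succ i ih =>
    intro u hu
    refine Submodule.mul_induction_on (M := I) (N := Fil I i) hu ?_ ?_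
    · intro p hp q hq
      rw [map_mul]
      exact Submodule.mul_mem_mul (hf p hp) (ih q hq)
    · intro p q hp hq
      rw [map_add]
      exact (Fil I (i + 1)).add_mem hp hq

theorem fil_pow (I : Submodule ℚ A) (D : Module.End ℚ A) (i : ℕ)
    (hD : ∀ u ∈ Fil I i, D u ∈ Fil I i) (n : ℕ) : ∀ u ∈ Fil I i, (D ^ n) u ∈ Fil I i := by
  induction n with
  | zero => exact fun u hu => hu
  | succ n ih =>
    intro u hu
    rw [pow_succ, Module.End.mul_apply]
    exact ih _ (hD u hu)

theorem fil_Dprod (I : Submodule ℚ A) (hr : ∀ a, ∀ u ∈ I, u * a ∈ I) (D : Module.End ℚ A)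
    (hDI : ∀ u ∈ I, D u ∈ I) (hDF : ∀ i, ∀ u ∈ Fil I i, D u ∈ Fil I i)
    (hD : ∀ u v, D (u * v) = D u * v + u * D v + D u * D v) :
    ∀ s a b : ℕ, a + b = s → ∀ i, ∀ u ∈ I, ∀ v ∈ Fil I i, (D ^ a) u ∈ Fil I 2 →
      (D ^ b) v ∈ Fil I (i + 1) → (D ^ (a + b)) (u * v) ∈ Fil I (i + 2) := by
  intro s
  induction s using Nat.strong_induction_on with
  | _ s ih =>
    intro a b hab i u hu v hv ha hb
    rcases Nat.eq_zero_or_pos a with h0 | h0
    · subst h0
      exact fil_pow I D (i + 2) (hDF _) _ _ (fil_two I hr i u ha v hv)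
    · rcases Nat.eq_zero_or_pos b with h1 | h1
      · subst h1
        exact fil_pow I D (i + 2) (hDF _) _ _ (Submodule.mul_mem_mul hu hb)
      · obtain ⟨a', rfl⟩ : ∃ a', a = a' + 1 := ⟨a - 1, by omega⟩
        obtain ⟨b', rfl⟩ : ∃ b', b = b' + 1 := ⟨b - 1, by omega⟩
        have e : a' + 1 + (b' + 1) = (a' + b' + 1) + 1 := by omega
        rw [e, pow_succ, Module.End.mul_apply, hD, map_add, map_add]
        rw [pow_succ, Module.End.mul_apply] at ha hb
        have k1 : (D ^ (a' + b' + 1)) (D u * v) ∈ Fil I (i + 2) := by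
          have := ih (a' + (b' + 1)) (by omega) a' (b' + 1) rfl i (D u) (hDI u hu) v hv ha
            (by rw [pow_succ, Module.End.mul_apply]; exact hb)
          rwa [← add_assoc] at this
        have k2 : (D ^ (a' + b' + 1)) (u * D v) ∈ Fil I (i + 2) := by
          have := ih ((a' + 1) + b') (by omega) (a' + 1) b' rfl i u hu (D v) (hDF i v hv)
            (by rw [pow_succ, Module.End.mul_apply]; exact ha) hb
          have e2 : a' + 1 + b' = a' + b' + 1 := by omega
          rwa [e2] at this
        have k3 : (D ^ (a' + b' + 1)) (D u * D v) ∈ Fil I (i + 2) := by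
          have := ih (a' + b') (by omega) a' b' rfl i (D u) (hDI u hu) (D v) (hDF i v hv) ha hb
          rw [pow_succ', Module.End.mul_apply]
          exact hDF _ _ this
        exact (Fil I (i + 2)).add_mem ((Fil I (i + 2)).add_mem k1 k2) k3

theorem fil_exists (I : Submodule ℚ A) (hr : ∀ a, ∀ u ∈ I, u * a ∈ I) (D : Module.End ℚ A)
    (hDI : ∀ u ∈ I, D u ∈ I) (hDF : ∀ i, ∀ u ∈ Fil I i, D u ∈ Fil I i)
    (hD : ∀ u v, D (u * v) = D u * v + u * D v + D u * D v) (k : ℕ)
    (hk : ∀ u ∈ I, (D ^ k) u ∈ Fil I 2) (h1 : ∀ u, D u ∈ Fil I 1) :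
    ∀ i, ∃ e : ℕ, ∀ u ∈ Fil I i, (D ^ e) u ∈ Fil I (i + 1) := by
  intro i
  induction i with
  | zero => exact ⟨1, fun u _ => by rw [pow_one]; exact h1 u⟩
  | succ i ih =>
    obtain ⟨e, he⟩ := ih
    refine ⟨k + e, ?_⟩
    intro u hu
    refine Submodule.mul_induction_on (M := I) (N := Fil I i) hu ?_ ?_
    · intro p hp q hq
      exact fil_Dprod I hr D hDI hDF hD (k + e) k e rfl i p hp q hq (hk p hp) (he q hq)
    · intro p q hp hq
      rw [map_add]
      exact (Fil I (i + 2)).add_mem hp hq

section grp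

variable {G : Type} [Group G] (T : G →* Module.End ℚ A) (x : G)

theorem fil_zpow (Y : Submodule ℚ A) (hY : ∀ g, ∀ u ∈ Y, T g u ∈ Y) (w : A)
    (hw : (T x - 1) w ∈ Y) (r : ℤ) : T (x ^ r) w - w ∈ Y := by
  have hw' : T x w - w ∈ Y := hw
  induction r using Int.induction_on with
  | zero => simp
  | succ n ih =>
    have e : T (x ^ ((n : ℤ) + 1)) w - w = T (x ^ (n : ℤ)) (T x w - w) + (T (x ^ (n : ℤ)) w - w) := by
      rw [zpow_add_one, map_mul, Module.End.mul_apply, map_sub]
      abel
    rw [e]
    exact Y.add_mem (hY _ _ hw') ih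
  | pred n ih =>
    have e : T (x ^ (-(n : ℤ) - 1)) w - w =
        -T (x ^ (-(n : ℤ) - 1)) (T x w - w) + (T (x ^ (-(n : ℤ))) w - w) := by
      have e1 : T (x ^ (-(n : ℤ))) w = T (x ^ (-(n : ℤ) - 1)) (T x w) := by
        rw [← Module.End.mul_apply, ← map_mul, ← zpow_add_one]
        congr 3
        ring
      rw [e1, map_sub]
      abel
    rw [e]
    exact Y.add_mem (Y.neg_mem (hY _ _ hw')) ih

theorem fil_list (I : Submodule ℚ A) (hT : ∀ g i, ∀ u ∈ Fil I i, T g u ∈ Fil I i)
    (hn : ∀ g, ∃ (n : G) (r : ℤ), g = n * x ^ r ∧ ∀ i, ∀ u ∈ Fil I i, T n u - u ∈ Fil I (i + 1))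
    (hmono : ∀ i, ∀ u ∈ Fil I (i + 1), u ∈ Fil I i) :
    ∀ (j i : ℕ) (v : A) (l : List G), v ∈ Fil I i → ((T x - 1) ^ j) v ∈ Fil I (i + 1) →
      l.length = j → (l.map (fun g => T g - 1)).prod v ∈ Fil I (i + 1) := by
  intro j
  have hDF : ∀ i, ∀ u ∈ Fil I i, (T x - 1) u ∈ Fil I i := fun i u hu =>
    (Fil I i).sub_mem (hT x i u hu) hu
  induction j with
  | zero =>
    intro i v l hv hD hl
    rw [List.length_eq_zero_iff] at hl
    rw [hl]
    exact hD
  | succ j ih =>
    intro i v l hv hD hl
    have hne : l ≠ [] := by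
      rintro rfl
      simp at hl
    obtain ⟨l', g, rfl⟩ : ∃ l' g, l = l' ++ [g] := ⟨l.dropLast, l.getLast hne, (List.dropLast_append_getLast hne).symm⟩
    rw [List.map_append, List.prod_append, Module.End.mul_apply]
    have hl' : l'.length = j := by
      rw [List.length_append] at hl
      simpa using hl
    have e0 : ([g].map (fun g => T g - 1)).prod v = T g v - v := by simp
    rw [e0]
    obtain ⟨n, r, hg, hnr⟩ := hn g
    apply ih i _ l' _ _ hl'
    · exact (Fil I i).sub_mem (hT g i v hv) hv
    · have e1 : T g v - v = (T n (T (x ^ r) v) - T (x ^ r) v) + (T (x ^ r) v - v) := by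
        rw [hg, map_mul, Module.End.mul_apply]
        abel
      rw [e1, map_add]
      have k1 : ((T x - 1) ^ j) (T n (T (x ^ r) v) - T (x ^ r) v) ∈ Fil I (i + 1) :=
        fil_pow I (T x - 1) (i + 1) (hDF _) j _ (hnr i _ (hT _ i v hv))
      have hcomm : Commute (T (x ^ r)) ((T x - 1) ^ j) := by
        have h1 : Commute (x ^ r) x := (Commute.refl x).zpow_left r
        have h2 : Commute (T (x ^ r)) (T x) := h1.map T
        exact (h2.sub_right (Commute.one_right _)).pow_right j
      have k2 : ((T x - 1) ^ j) (T (x ^ r) v - v) ∈ Fil I (i + 1) := by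
        have e2 : ((T x - 1) ^ j) (T (x ^ r) v - v) =
            T (x ^ r) (((T x - 1) ^ j) v) - ((T x - 1) ^ j) v := by
          rw [map_sub]
          congr 1
          rw [← Module.End.mul_apply, ← Module.End.mul_apply, hcomm.eq]
        rw [e2]
        apply fil_zpow T x (Fil I (i + 1)) (fun g => hT g (i + 1))
        rw [← Module.End.mul_apply, ← pow_succ']
        exact hD
      exact (Fil I (i + 1)).add_mem k1 k2

theorem fil_total (I : Submodule ℚ A) (hT : ∀ g i, ∀ u ∈ Fil I i, T g u ∈ Fil I i)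
    (hn : ∀ g, ∃ (n : G) (r : ℤ), g = n * x ^ r ∧ ∀ i, ∀ u ∈ Fil I i, T n u - u ∈ Fil I (i + 1))
    (hmono : ∀ i, ∀ u ∈ Fil I (i + 1), u ∈ Fil I i)
    (he : ∀ i, ∃ e : ℕ, ∀ u ∈ Fil I i, ((T x - 1) ^ e) u ∈ Fil I (i + 1)) :
    ∀ i, ∃ E, ∀ l : List G, l.length = E → ∀ v, (l.map (fun g => T g - 1)).prod v ∈ Fil I i := by
  intro i
  induction i with
  | zero => exact ⟨0, fun _ _ _ => Submodule.mem_top⟩
  | succ i ih =>
    obtain ⟨E, hE⟩ := ih
    obtain ⟨e, he'⟩ := he i
    refine ⟨e + E, ?_⟩
    intro l hl v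
    rw [← List.take_append_drop e l, List.map_append, List.prod_append, Module.End.mul_apply]
    have h1 := hE (l.drop e) (by rw [List.length_drop, hl]; omega) v
    exact fil_list T x I hT hn hmono e i _ (l.take e) h1 (he' _ h1)
      (by rw [List.length_take, hl]; omega)

end grp

end fil

/-- lifting unipotent detection through an infinite cyclic quotient of an Engel group -/
theorem lift_detect (G : Type) [Group G] (k : ℕ)
    (hE : ∀ x y : G, (fun z : G => z⁻¹ * y⁻¹ * z * y)^[k] x = 1)
    (φ : G →* Multiplicative ℤ) (hφ : Function.Surjective φ) (t : φ.ker)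
    (ht : UDetect φ.ker t) : UDetect G (t : G) := by
  classical
  obtain ⟨x, hx⟩ := hφ (Multiplicative.ofAdd 1)
  obtain ⟨R0, _, _, ρ0, M, hρ0, hρt⟩ := ht
  let o : φ.ker →* MonoidAlgebra ℚ φ.ker := MonoidAlgebra.of ℚ φ.ker
  let I : Submodule ℚ (MonoidAlgebra ℚ φ.ker) := Submodule.span ℚ (Set.range fun n => o n - 1)
  have hgen : ∀ n, o n - 1 ∈ I := fun n => Submodule.subset_span ⟨n, rfl⟩
  have hl : ∀ a, ∀ u ∈ I, a * u ∈ I := by
    intro a
    induction a using MonoidAlgebra.induction_on with
    | of m =>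
      intro u hu
      induction hu using Submodule.span_induction with
      | mem u hu =>
        obtain ⟨n, rfl⟩ := hu
        have e : o m * (o n - 1) = (o (m * n) - 1) - (o m - 1) := by
          rw [map_mul]
          noncomm_ring
        show o m * (o n - 1) ∈ I
        rw [e]
        exact I.sub_mem (hgen _) (hgen _)
      | zero => rw [mul_zero]; exact I.zero_mem
      | add p q _ _ hp hq => rw [mul_add]; exact I.add_mem hp hq
      | smul c p _ hp => rw [mul_smul_comm]; exact I.smul_mem c hp
    | add p q hp hq =>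
      intro u hu
      rw [add_mul]
      exact I.add_mem (hp u hu) (hq u hu)
    | smul c p hp =>
      intro u hu
      rw [smul_mul_assoc]
      exact I.smul_mem c (hp u hu)
  have hr : ∀ a, ∀ u ∈ I, u * a ∈ I := by
    intro a
    induction a using MonoidAlgebra.induction_on with
    | of m =>
      intro u hu
      induction hu using Submodule.span_induction with
      | mem u hu =>
        obtain ⟨n, rfl⟩ := hu
        have e : (o n - 1) * o m = (o (n * m) - 1) - (o m - 1) := by
          rw [map_mul]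
          noncomm_ring
        show (o n - 1) * o m ∈ I
        rw [e]
        exact I.sub_mem (hgen _) (hgen _)
      | zero => rw [zero_mul]; exact I.zero_mem
      | add p q _ _ hp hq => rw [add_mul]; exact I.add_mem hp hq
      | smul c p _ hp => rw [smul_mul_assoc]; exact I.smul_mem c hp
    | add p q hp hq =>
      intro u hu
      rw [mul_add]
      exact I.add_mem (hp u hu) (hq u hu)
    | smul c p hp =>
      intro u hu
      rw [mul_smul_comm]
      exact I.smul_mem c (hp u hu)
  -- conjugation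
  let cj : G → (MonoidAlgebra ℚ φ.ker →ₐ[ℚ] MonoidAlgebra ℚ φ.ker) := fun g =>
    MonoidAlgebra.lift ℚ (MonoidAlgebra ℚ φ.ker) φ.ker
      (o.comp (MulAut.conjNormal g : φ.ker ≃* φ.ker).toMonoidHom)
  have cj_of : ∀ g n, cj g (o n) = o (MulAut.conjNormal g n) := by
    intro g n
    exact MonoidAlgebra.lift_of _ _
  have cj_one : ∀ u, cj 1 u = u := by
    intro u
    induction u using MonoidAlgebra.induction_on with
    | of m =>
      show cj 1 (o m) = o m
      rw [cj_of, map_one]
      rfl
    | add p q hp hq => rw [map_add, hp, hq]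
    | smul c p hp => rw [map_smul, hp]
  have cj_mul : ∀ g h u, cj (g * h) u = cj g (cj h u) := by
    intro g h u
    induction u using MonoidAlgebra.induction_on with
    | of m =>
      show cj (g * h) (o m) = cj g (cj h (o m))
      rw [cj_of, cj_of, cj_of, map_mul]
      rfl
    | add p q hp hq => rw [map_add, map_add, map_add, hp, hq]
    | smul c p hp => rw [map_smul, map_smul, map_smul, hp]
  have cj_I : ∀ g, ∀ u ∈ I, cj g u ∈ I := by
    intro g u hu
    induction hu using Submodule.span_induction with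
    | mem u hu =>
      obtain ⟨n, rfl⟩ := hu
      show cj g (o n - 1) ∈ I
      rw [map_sub, cj_of, map_one]
      exact hgen _
    | zero => rw [map_zero]; exact I.zero_mem
    | add p q _ _ hp hq => rw [map_add]; exact I.add_mem hp hq
    | smul c p _ hp => rw [map_smul]; exact I.smul_mem c hp
  -- the splitting
  let rr : G → ℤ := fun g => Multiplicative.toAdd (φ g)
  have rr_mul : ∀ g h, rr (g * h) = rr g + rr h := by
    intro g h
    simp only [rr, map_mul, toAdd_mul]
  have hφx : ∀ r : ℤ, φ (x ^ r) = Multiplicative.ofAdd r := by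
    intro r
    rw [map_zpow, hx, ← ofAdd_zsmul, smul_eq_mul, mul_one]
  have hmem : ∀ g, g * x ^ (-rr g) ∈ φ.ker := by
    intro g
    rw [MonoidHom.mem_ker, map_mul, hφx]
    show φ g * Multiplicative.ofAdd (-rr g) = 1
    rw [ofAdd_neg]
    exact mul_inv_cancel _
  let ν : G → φ.ker := fun g => ⟨g * x ^ (-rr g), hmem g⟩
  have ν_coe : ∀ g, (ν g : G) = g * x ^ (-rr g) := fun g => rfl
  have ν_mul : ∀ g h, ν (g * h) = ν g * MulAut.conjNormal (x ^ (rr g)) (ν h) := by
    intro g h
    apply Subtype.ext
    rw [Subgroup.coe_mul, MulAut.conjNormal_apply, ν_coe, ν_coe, ν_coe, rr_mul]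
    rw [neg_add, zpow_add, zpow_neg, zpow_neg]
    have hc : (x ^ rr g)⁻¹ * (x ^ rr h)⁻¹ = (x ^ rr h)⁻¹ * (x ^ rr g)⁻¹ := by
      rw [← mul_inv_rev, ← mul_inv_rev, ← zpow_add, ← zpow_add, add_comm]
    rw [hc]
    group
  have hν1 : ν 1 = 1 := by
    apply Subtype.ext
    rw [ν_coe]
    have : rr 1 = 0 := by simp only [rr, map_one, toAdd_one]
    rw [this]
    simp
  let T : G →* Module.End ℚ (MonoidAlgebra ℚ φ.ker) :=
    { toFun := fun g => LinearMap.mulLeft ℚ (o (ν g)) ∘ₗ (cj (x ^ rr g)).toLinearMap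
      map_one' := by
        refine LinearMap.ext fun u => ?_
        show o (ν 1) * cj (x ^ rr 1) u = u
        have : rr 1 = 0 := by simp only [rr, map_one, toAdd_one]
        rw [hν1, this, zpow_zero, cj_one, map_one, one_mul]
      map_mul' := fun g h => by
        refine LinearMap.ext fun u => ?_
        show o (ν (g * h)) * cj (x ^ rr (g * h)) u =
          o (ν g) * cj (x ^ rr g) (o (ν h) * cj (x ^ rr h) u)
        rw [ν_mul, rr_mul, zpow_add, cj_mul, map_mul, map_mul, cj_of, mul_assoc] }
  have hTdef : ∀ g u, T g u = o (ν g) * cj (x ^ rr g) u := fun g u => rfl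
  have hTF : ∀ g i, ∀ u ∈ Fil I i, T g u ∈ Fil I i := by
    intro g i u hu
    rw [hTdef]
    exact fil_left I hl i _ _ (fil_hom I _ (cj_I _) i u hu)
  have hker : ∀ n : φ.ker, ∀ u, T n u = o n * u := by
    intro n u
    have e : rr n = 0 := by
      have : φ n = 1 := n.2
      simp only [rr, this, toAdd_one]
    have e2 : ν n = n := by
      apply Subtype.ext
      rw [ν_coe, e]
      simp
    rw [hTdef, e, e2, zpow_zero, cj_one]
  have hmono : ∀ i, ∀ u ∈ Fil I (i + 1), u ∈ Fil I i := by
    intro i u hu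
    refine Submodule.mul_induction_on (M := I) (N := Fil I i) hu ?_ ?_
    · intro p _ q hq
      exact fil_left I hl i p q hq
    · intro p q hp hq
      exact (Fil I i).add_mem hp hq
  have hn : ∀ g, ∃ (n : G) (r : ℤ), g = n * x ^ r ∧
      ∀ i, ∀ u ∈ Fil I i, T n u - u ∈ Fil I (i + 1) := by
    intro g
    refine ⟨(ν g : G), rr g, ?_, ?_⟩
    · rw [ν_coe, mul_assoc, ← zpow_add, neg_add_cancel, zpow_zero, mul_one]
    · intro i u hu
      rw [hker]
      have e : o (ν g) * u - u = (o (ν g) - 1) * u := by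
        rw [sub_mul, one_mul]
      rw [e]
      exact Submodule.mul_mem_mul (hgen _) hu
  -- the operator D
  have hrx : rr x = 1 := by
    simp only [rr, hx, toAdd_ofAdd]
  have hTx : ∀ u, T x u = cj x u := by
    intro u
    have e2 : ν x = 1 := by
      apply Subtype.ext
      rw [ν_coe, hrx]
      simp
    rw [hTdef, hrx, e2, zpow_one, map_one, one_mul]
  have hDdef : ∀ u, (T x - 1) u = cj x u - u := by
    intro u
    rw [← hTx]
    rfl
  have hDI : ∀ u ∈ I, (T x - 1) u ∈ I := by
    intro u hu
    rw [hDdef]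
    exact I.sub_mem (cj_I x u hu) hu
  have hDF : ∀ i, ∀ u ∈ Fil I i, (T x - 1) u ∈ Fil I i := fun i u hu =>
    (Fil I i).sub_mem (hTF x i u hu) hu
  have hDmul : ∀ u v, (T x - 1) (u * v) = (T x - 1) u * v + u * (T x - 1) v +
      (T x - 1) u * (T x - 1) v := by
    intro u v
    rw [hDdef, hDdef, hDdef, map_mul]
    noncomm_ring
  let st : φ.ker → φ.ker := fun n => n⁻¹ * MulAut.conjNormal x n
  have hst : ∀ n, ((st n : φ.ker) : G) = (n : G)⁻¹ * (x⁻¹)⁻¹ * n * x⁻¹ := by
    intro n
    simp only [st]
    rw [Subgroup.coe_mul, MulAut.conjNormal_apply, inv_inv]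
    simp [mul_assoc]
  have hstk : ∀ (j : ℕ) (n : φ.ker), ((st^[j] n : φ.ker) : G) =
      (fun z : G => z⁻¹ * (x⁻¹)⁻¹ * z * x⁻¹)^[j] n := by
    intro j
    induction j with
    | zero => exact fun n => rfl
    | succ j ih =>
      intro n
      rw [Function.iterate_succ_apply, Function.iterate_succ_apply, ih, hst]
  have hD1 : ∀ n, (T x - 1) (o n - 1) - (o (st n) - 1) ∈ Fil I 2 := by
    intro n
    have e : (T x - 1) (o n - 1) - (o (st n) - 1) = (o n - 1) * (o (st n) - 1) := by
      rw [hDdef, map_sub, map_one, cj_of]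
      have e1 : o (MulAut.conjNormal x n) = o n * o (st n) := by
        rw [← map_mul]
        simp only [st]
        rw [mul_inv_cancel_left]
      rw [e1]
      noncomm_ring
    rw [e]
    exact Submodule.mul_mem_mul (hgen _) (fil_one I _ (hgen _))
  have hDj : ∀ (j : ℕ) n, ((T x - 1) ^ j) (o n - 1) - (o (st^[j] n) - 1) ∈ Fil I 2 := by
    intro j
    induction j with
    | zero =>
      intro n
      simp
    | succ j ih =>
      intro n
      rw [pow_succ', Module.End.mul_apply, Function.iterate_succ_apply']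
      have h1 := hDF 2 _ (ih n)
      rw [map_sub] at h1
      have h2 := hD1 (st^[j] n)
      have := (Fil I 2).add_mem h1 h2
      rwa [sub_add_sub_cancel] at this
  have hk : ∀ u ∈ I, ((T x - 1) ^ k) u ∈ Fil I 2 := by
    intro u hu
    induction hu using Submodule.span_induction with
    | mem u hu =>
      obtain ⟨n, rfl⟩ := hu
      have h1 := hDj k n
      have h2 : st^[k] n = 1 := by
        apply Subtype.ext
        rw [hstk]
        exact hE n x⁻¹
      rw [h2, map_one, sub_self, sub_zero] at h1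
      exact h1
    | zero => rw [map_zero]; exact (Fil I 2).zero_mem
    | add p q _ _ hp hq => rw [map_add]; exact (Fil I 2).add_mem hp hq
    | smul c p _ hp => rw [map_smul]; exact (Fil I 2).smul_mem c hp
  have h1 : ∀ u, (T x - 1) u ∈ Fil I 1 := by
    intro u
    induction u using MonoidAlgebra.induction_on with
    | of m =>
      show (T x - 1) (o m) ∈ Fil I 1
      rw [hDdef, cj_of]
      have e : o (MulAut.conjNormal x m) - o m = (o (MulAut.conjNormal x m) - 1) - (o m - 1) := by
        abel
      rw [e]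
      exact (Fil I 1).sub_mem (fil_one I _ (hgen _)) (fil_one I _ (hgen _))
    | add p q hp hq => rw [map_add]; exact (Fil I 1).add_mem hp hq
    | smul c p hp => rw [map_smul]; exact (Fil I 1).smul_mem c hp
  have he := fil_exists I hr (T x - 1) hDI hDF hDmul k hk h1
  obtain ⟨E, hEE⟩ := fil_total T x I hTF hn hmono he M
  -- the representation on the quotient
  let ρ : G →* Module.End ℚ (MonoidAlgebra ℚ φ.ker ⧸ Fil I M) :=
    { toFun := fun g => Submodule.mapQ (Fil I M) (Fil I M) (T g) (fun u hu => hTF g M u hu)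
      map_one' := by
        apply Submodule.linearMap_qext
        refine LinearMap.ext fun u => ?_
        show Submodule.Quotient.mk (T 1 u) = Submodule.Quotient.mk u
        rw [map_one]
        rfl
      map_mul' := fun g h => by
        apply Submodule.linearMap_qext
        refine LinearMap.ext fun u => ?_
        show Submodule.Quotient.mk (T (g * h) u) = Submodule.Quotient.mk (T g (T h u))
        rw [map_mul]
        rfl }
  have hρmk : ∀ g u, ρ g (Submodule.Quotient.mk u) = Submodule.Quotient.mk (T g u) := fun g u => rfl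
  refine ⟨Module.End ℚ (MonoidAlgebra ℚ φ.ker ⧸ Fil I M), inferInstance, inferInstance, ρ, E, ?_, ?_⟩
  · intro l hl'
    have hmk : ∀ (l : List G) (u : MonoidAlgebra ℚ φ.ker),
        (l.map (fun g => ρ g - 1)).prod (Submodule.Quotient.mk u) =
          (Submodule.Quotient.mk ((l.map (fun g => T g - 1)).prod u) :
            MonoidAlgebra ℚ φ.ker ⧸ Fil I M) := by
      intro l
      induction l with
      | nil => intro u; rfl
      | cons g l ih =>
        intro u
        rw [List.map_cons, List.prod_cons, Module.End.mul_apply, ih, List.map_cons, List.prod_cons,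
          Module.End.mul_apply]
        rfl
    apply Submodule.linearMap_qext
    refine LinearMap.ext fun u => ?_
    show (l.map (fun g => ρ g - 1)).prod (Submodule.Quotient.mk u) = 0
    rw [hmk, Submodule.Quotient.mk_eq_zero]
    exact hEE l hl' u
  · intro hcon
    have e1 : ρ (t : G) (Submodule.Quotient.mk 1) = (Submodule.Quotient.mk 1 :
        MonoidAlgebra ℚ φ.ker ⧸ Fil I M) := by
      rw [hcon]
      rfl
    rw [hρmk, hker, mul_one, Submodule.Quotient.eq] at e1
    -- the linear extension kills Fil I M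
    let L : MonoidAlgebra ℚ φ.ker →ₐ[ℚ] R0 := MonoidAlgebra.lift ℚ R0 φ.ker ρ0
    have hL : ∀ n, L (o n) = ρ0 n := fun n => MonoidAlgebra.lift_of _ _
    have hclaim : ∀ i, i ≤ M → ∀ u ∈ Fil I i, ∀ l : List φ.ker, l.length = M - i →
        (l.map (fun g => ρ0 g - 1)).prod * L u = 0 := by
      intro i
      induction i with
      | zero =>
        intro _ u _ l hl'
        rw [hρ0 l (by simpa using hl'), zero_mul]
      | succ i ih =>
        intro hi u hu
        refine Submodule.mul_induction_on (M := I) (N := Fil I i) hu ?_ ?_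
        · intro p hp q hq l hl'
          rw [map_mul, ← mul_assoc]
          induction hp using Submodule.span_induction with
          | mem p hp =>
            obtain ⟨n, rfl⟩ := hp
            have h2 := ih (by omega) q hq (l ++ [n]) (by
              rw [List.length_append, hl', List.length_singleton]
              omega)
            rw [List.map_append, List.prod_append] at h2
            show (l.map (fun g => ρ0 g - 1)).prod * L (o n - 1) * L q = 0
            rw [map_sub, hL, map_one]
            simpa using h2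
          | zero => rw [map_zero, mul_zero, zero_mul]
          | add a b _ _ ha hb => rw [map_add, mul_add, add_mul, ha, hb, add_zero]
          | smul c a _ ha => rw [map_smul, mul_smul_comm, smul_mul_assoc, ha, smul_zero]
        · intro p q hp hq l hl'
          rw [map_add, mul_add, hp l hl', hq l hl', add_zero]
    have h3 := hclaim M le_rfl _ e1 [] (by simp)
    rw [List.map_nil, List.prod_nil, one_mul, map_sub, hL, map_one, sub_eq_zero] at h3
    exact hρt h3

end Pool.Agent.Helper277.ZG.Kos
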