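import Mathlib

set_option autoImplicit false
open scoped commutatorElement

namespace Pool.Agent.Helper277.ZG.Kos

theorem rank_lemma {A Q : Type} [Group A] [CommGroup Q] (hQ : Group.FG Q) (ψ : A →* Q)
    (M : ℕ → Subgroup A) (hM : Antitone M) (I : Set ℕ) (hI : I.Infinite) (g : ℕ → A)
    (hg : ∀ i ∈ I, g i ∈ M i)
    (hg' : ∀ i ∈ I, ∀ m : ℤ, m ≠ 0 → ψ (g i) ^ m ∉ (M (i+1)).map ψ) : False := by
  classical
  have : Module.Finite ℤ (Additive Q) := by
    rw [Module.Finite.iff_addGroup_fg]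
    infer_instance
  have : IsNoetherian ℤ (Additive Q) := inferInstance
  have : Infinite I := hI.to_subtype
  let e : ℕ ↪o ℕ := Nat.orderEmbeddingOfSet I
  have he : ∀ k, e k ∈ I := fun k => (Nat.Subtype.orderIsoOfNat I k).2
  let v : ℕ → Additive Q := fun k => Additive.ofMul (ψ (g (e k)))
  have hli : LinearIndependent ℤ v := by
    rw [linearIndependent_iff']
    intro s c hc i hi
    by_contra hne
    have hne' : (s.filter (fun k => c k ≠ 0)).Nonempty := ⟨i, by simp [hi, hne]⟩
    obtain ⟨i0, hi0⟩ : ∃ i0, i0 = (s.filter (fun k => c k ≠ 0)).min' hne' := ⟨_, rfl⟩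
    have hi0mem := Finset.min'_mem _ hne'
    rw [← hi0, Finset.mem_filter] at hi0mem
    let P : AddSubgroup (Additive Q) := Subgroup.toAddSubgroup ((M (e i0 + 1)).map ψ)
    have h1 : ∑ k ∈ s.erase i0, c k • v k ∈ P := by
      apply AddSubgroup.sum_mem
      intro k hk
      by_cases hck : c k = 0
      · rw [hck, zero_smul]; exact P.zero_mem
      · have hle : i0 ≤ k := by
          rw [hi0]
          exact Finset.min'_le _ _ (by simp [Finset.mem_of_mem_erase hk, hck])
        have hlt : i0 < k := lt_of_le_of_ne hle (Finset.ne_of_mem_erase hk).symm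
        have h2 : e i0 + 1 ≤ e k := e.strictMono hlt
        apply AddSubgroup.zsmul_mem
        show ψ (g (e k)) ∈ (M (e i0+1)).map ψ
        exact Subgroup.mem_map_of_mem ψ (hM h2 (hg _ (he k)))
    have h2 : c i0 • v i0 + ∑ k ∈ s.erase i0, c k • v k = 0 := by
      rw [Finset.add_sum_erase s (fun k => c k • v k) hi0mem.1]; exact hc
    have h3 : c i0 • v i0 ∈ P := by
      have : c i0 • v i0 = - ∑ k ∈ s.erase i0, c k • v k := by
        rw [eq_neg_iff_add_eq_zero]; exact h2
      rw [this]; exact P.neg_mem h1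
    exact hg' _ (he i0) (c i0) hi0mem.2 h3
  have := hli.finite_of_isNoetherian
  exact not_finite ℕ

/-- terms of the lower central series -/
def gam (H : Type) [Group H] (n : ℕ) : Subgroup H := Subgroup.lowerCentralSeries (⊤ : Subgroup H) n

theorem gam_comm {H : Type} [Group H] (n : ℕ) (a : H) (ha : a ∈ gam H n) (b : H) :
    ⁅a, b⁆ ∈ gam H (n+1) :=
  Subgroup.commutator_mem_commutator ha (Subgroup.mem_top b)

theorem gam_comm' {H : Type} [Group H] (n : ℕ) (a : H) (ha : a ∈ gam H n) (b : H) :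
    ⁅b, a⁆ ∈ gam H (n+1) := by
  rw [← commutatorElement_inv]
  exact Subgroup.inv_mem _ (gam_comm n a ha b)

theorem gam_anti (H : Type) [Group H] : Antitone (gam H) := Subgroup.lowerCentralSeries_antitone _

theorem gam_fg (H : Type) [Group H] [Group.FG H] (j : ℕ) :
    ∃ T : Set H, T.Finite ∧ T ⊆ gam H j ∧ gam H j ≤ Subgroup.closure T ⊔ gam H (j+1) := by
  obtain ⟨S, hS, hSf⟩ := Group.fg_iff.1 (inferInstance : Group.FG H)
  induction j with
  | zero =>
    refine ⟨S, hSf, ?_, ?_⟩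
    · intro x _; exact Subgroup.mem_top x
    · rw [hS]; exact le_trans le_top le_sup_left
  | succ j ih =>
    obtain ⟨T, hTf, hTs, hT⟩ := ih
    refine ⟨Set.image2 (fun t s => ⁅t, s⁆) T S, hTf.image2 _ hSf, ?_, ?_⟩
    · rintro x ⟨t, ht, s, _, rfl⟩
      exact gam_comm j t (hTs ht) s
    · obtain ⟨M, hM⟩ : ∃ M, M = Subgroup.closure (Set.image2 (fun t s : H => ⁅t, s⁆) T S)
        ⊔ gam H (j+1+1) := ⟨_, rfl⟩
      rw [← hM]
      have hM2 : ∀ x ∈ gam H (j+1+1), x ∈ M := by
        intro x hx; rw [hM]; exact (le_sup_right : gam H (j+1+1) ≤ _) hx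
      have hconj : ∀ x, x ∈ gam H (j+1) → x ∈ M → ∀ h : H, h * x * h⁻¹ ∈ M := by
        intro x hx hxM h
        have e1 : h * x * h⁻¹ = ⁅h, x⁆ * x := by rw [commutatorElement_def]; group
        rw [e1]
        exact M.mul_mem (hM2 _ (gam_comm' _ x hx h)) hxM
      have hA : ∀ g ∈ gam H j, ∃ L : Subgroup H, ∀ h, h ∈ L ↔ ⁅g, h⁆ ∈ M := by
        intro g hg
        refine ⟨{ carrier := {h | ⁅g, h⁆ ∈ M}, mul_mem' := ?_, one_mem' := ?_, inv_mem' := ?_ }, ?_⟩
        · intro h k hh hk
          have e1 : ⁅g, h * k⁆ = ⁅g, h⁆ * (h * ⁅g, k⁆ * h⁻¹) := by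
            simp only [commutatorElement_def]; group
          show ⁅g, h * k⁆ ∈ M
          rw [e1]
          exact M.mul_mem hh (hconj _ (gam_comm j g hg k) hk h)
        · show ⁅g, 1⁆ ∈ M
          rw [commutatorElement_one_right]; exact M.one_mem
        · intro h hh
          show ⁅g, h⁻¹⁆ ∈ M
          have e1 : ⁅g, h⁻¹⁆ = h⁻¹ * ⁅g, h⁆⁻¹ * h⁻¹⁻¹ := by
            simp only [commutatorElement_def]; group
          rw [e1]
          exact hconj _ (Subgroup.inv_mem _ (gam_comm j g hg h)) (M.inv_mem hh) h⁻¹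
        · intro h; rfl
      have hB : ∀ h : H, ∃ L : Subgroup H, ∀ g, g ∈ L ↔ g ∈ gam H j ∧ ⁅g, h⁆ ∈ M := by
        intro h
        refine ⟨{ carrier := {g | g ∈ gam H j ∧ ⁅g, h⁆ ∈ M}
                  mul_mem' := ?_
                  one_mem' := ?_
                  inv_mem' := ?_ }, ?_⟩
        · rintro g g' ⟨hg, hgM⟩ ⟨hg', hgM'⟩
          refine ⟨(gam H j).mul_mem hg hg', ?_⟩
          have e1 : ⁅g * g', h⁆ = (g * ⁅g', h⁆ * g⁻¹) * ⁅g, h⁆ := by
            simp only [commutatorElement_def]; group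
          rw [e1]
          exact M.mul_mem (hconj _ (gam_comm j g' hg' h) hgM' g) hgM
        · refine ⟨(gam H j).one_mem, ?_⟩
          rw [commutatorElement_one_left]; exact M.one_mem
        · rintro g ⟨hg, hgM⟩
          refine ⟨(gam H j).inv_mem hg, ?_⟩
          have e1 : ⁅g⁻¹, h⁆ = g⁻¹ * ⁅g, h⁆⁻¹ * g⁻¹⁻¹ := by
            simp only [commutatorElement_def]; group
          rw [e1]
          exact hconj _ (Subgroup.inv_mem _ (gam_comm j g hg h)) (M.inv_mem hgM) g⁻¹
        · intro g; rfl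
      have hT' : ∀ t ∈ T, ∀ h, ⁅t, h⁆ ∈ M := by
        intro t ht h
        obtain ⟨L, hL⟩ := hA t (hTs ht)
        have hSL : Subgroup.closure S ≤ L := by
          rw [Subgroup.closure_le]
          intro s hs
          rw [SetLike.mem_coe, hL, hM]
          exact (le_sup_left : _ ≤ Subgroup.closure (Set.image2 (fun t s : H => ⁅t, s⁆) T S)
            ⊔ gam H (j+1+1)) (Subgroup.subset_closure ⟨t, ht, s, hs, rfl⟩)
        rw [← hL]
        exact hSL (by rw [hS]; exact Subgroup.mem_top h)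
      have hall : ∀ g ∈ gam H j, ∀ h, ⁅g, h⁆ ∈ M := by
        intro g hg h
        obtain ⟨L, hL⟩ := hB h
        have h1 : Subgroup.closure T ≤ L := by
          rw [Subgroup.closure_le]
          intro t ht
          rw [SetLike.mem_coe, hL]
          exact ⟨hTs ht, hT' t ht h⟩
        have h2 : gam H (j+1) ≤ L := by
          intro x hx
          rw [hL]
          exact ⟨gam_anti H (Nat.le_succ j) hx, hM2 _ (gam_comm _ x hx h)⟩
        have h3 : g ∈ L := (sup_le h1 h2) (hT hg)
        exact ((hL g).1 h3).2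
      show ⁅gam H j, ⊤⁆ ≤ M
      rw [Subgroup.commutator_le]
      intro g hg h _
      exact hall g hg h

/-- no infinite chain with infinite cyclic quotients above a term of the lower central series of a
finitely generated group -/
theorem no_chain (H : Type) [Group H] [Group.FG H] (c : ℕ) (N : ℕ → Subgroup H)
    (hc : ∀ i, Subgroup.lowerCentralSeries (⊤ : Subgroup H) c ≤ N i)
    (hdec : ∀ i, N (i + 1) ≤ N i)
    (φ : ∀ i, N i →* Multiplicative ℤ) (hsurj : ∀ i, Function.Surjective (φ i))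
    (hker : ∀ (i : ℕ) (x : N i), φ i x = 1 ↔ (x : H) ∈ N (i + 1)) : False := by
  classical
  have hanti : Antitone N := antitone_nat_of_succ_le hdec
  -- powers
  have hpow : ∀ i, ∀ x ∈ N i, x ∉ N (i+1) → ∀ m : ℤ, m ≠ 0 → x ^ m ∉ N (i+1) := by
    intro i x hx hx' m hm h
    have h1 : φ i ⟨x, hx⟩ ≠ 1 := fun h => hx' ((hker i ⟨x, hx⟩).1 h)
    have h2 : φ i (⟨x, hx⟩ ^ m) = 1 := by
      rw [hker]
      exact h
    rw [map_zpow] at h2
    have h3 : m * Multiplicative.toAdd (φ i ⟨x, hx⟩) = 0 := by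
      have := congrArg Multiplicative.toAdd h2
      rw [toAdd_zpow, toAdd_one, smul_eq_mul] at this
      exact this
    rcases mul_eq_zero.1 h3 with h4 | h4
    · exact hm h4
    · exact h1 (Multiplicative.toAdd.injective (by rw [h4, toAdd_one]))
  let P : ℕ → ℕ → Prop := fun i j => N i ⊓ gam H j ≠ N (i+1) ⊓ gam H j
  have hP0 : ∀ i, P i 0 := by
    intro i h
    obtain ⟨x, hx⟩ := hsurj i (Multiplicative.ofAdd 1)
    have h1 : (x : H) ∈ N i ⊓ gam H 0 := ⟨x.2, Subgroup.mem_top _⟩
    rw [h] at h1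
    have h2 := (hker i x).2 h1.1
    rw [h2] at hx
    have := congrArg Multiplicative.toAdd hx
    simp at this
  have hPc : ∀ i, ¬ P i c := by
    intro i h
    apply h
    have h1 : gam H c ≤ N i := hc i
    have h2 : gam H c ≤ N (i+1) := hc (i+1)
    rw [inf_eq_right.2 h1, inf_eq_right.2 h2]
  let f : ℕ → Fin (c+1) := fun i => ⟨Nat.findGreatest (P i) c,
    Nat.lt_succ_of_le (Nat.findGreatest_le c)⟩
  obtain ⟨y, hy⟩ := Finite.exists_infinite_fiber f
  obtain ⟨j, hj⟩ : ∃ j : ℕ, j = y.val := ⟨_, rfl⟩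
  have hI : (f ⁻¹' {y}).Infinite := Set.infinite_coe_iff.1 hy
  have hfy : ∀ i ∈ f ⁻¹' {y}, Nat.findGreatest (P i) c = j := by
    intro i hi
    have h1 : f i = y := hi
    rw [hj, ← h1]
  have hPj : ∀ i ∈ f ⁻¹' {y}, P i j := by
    intro i hi
    rw [← hfy i hi]
    exact Nat.findGreatest_spec (P := P i) (Nat.zero_le c) (hP0 i)
  have hPj1 : ∀ i ∈ f ⁻¹' {y}, ¬ P i (j+1) := by
    intro i hi
    have h1 : j ≤ c := by rw [← hfy i hi]; exact Nat.findGreatest_le c
    have h2 : j ≠ c := by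
      intro h; exact hPc i (h ▸ hPj i hi)
    apply Nat.findGreatest_is_greatest (P := P i) (n := c) (k := j+1)
    · rw [hfy i hi]; exact Nat.lt_succ_self j
    · omega
  have hgex : ∀ i ∈ f ⁻¹' {y}, ∃ g : H, g ∈ N i ∧ g ∈ gam H j ∧ g ∉ N (i+1) := by
    intro i hi
    by_contra hcon
    apply hPj i hi
    apply le_antisymm
    · intro g hg
      refine ⟨?_, hg.2⟩
      by_contra hgn
      exact hcon ⟨g, hg.1, hg.2, hgn⟩
    · intro g hg
      exact ⟨hdec i hg.1, hg.2⟩
  -- quotient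
  set A := gam H j with hA
  set B : Subgroup A := (gam H (j+1)).subgroupOf A with hB
  have hBn : B.Normal := by
    have : (gam H (j+1)).Normal := by unfold gam; infer_instance
    exact this.subgroupOf A
  let _ : CommGroup (A ⧸ B) :=
    { (inferInstance : Group (A ⧸ B)) with
      mul_comm := by
        rintro ⟨a⟩ ⟨b⟩
        show QuotientGroup.mk (a * b) = QuotientGroup.mk (b * a)
        rw [QuotientGroup.eq, hB, Subgroup.mem_subgroupOf]
        have e1 : (((a * b)⁻¹ * (b * a) : A) : H) = ⁅(b : H)⁻¹, (a : H)⁻¹⁆ := by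
          push_cast
          rw [commutatorElement_def]; group
        rw [e1]
        exact gam_comm j _ (Subgroup.inv_mem _ b.2) _ }
  let ψ : A →* A ⧸ B := QuotientGroup.mk' B
  have hψker : ∀ a : A, ψ a = 1 ↔ (a : H) ∈ gam H (j+1) := by
    intro a
    show QuotientGroup.mk a = 1 ↔ _
    rw [QuotientGroup.eq_one_iff, hB, Subgroup.mem_subgroupOf]
  have hQfg : Group.FG (A ⧸ B) := by
    obtain ⟨T, hTf, hTs, hT⟩ := gam_fg H j
    rw [Group.fg_iff]
    refine ⟨ψ '' {a : A | (a : H) ∈ T}, ?_, ?_⟩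
    · rw [eq_top_iff]
      rintro ⟨a⟩ _
      show ψ a ∈ _
      rw [← MonoidHom.map_closure]
      have h1 : (a : H) ∈ Subgroup.closure T ⊔ gam H (j+1) := hT a.2
      have hnorm : (gam H (j+1)).Normal := by unfold gam; infer_instance
      rw [Subgroup.mem_sup_of_normal_right] at h1
      obtain ⟨x, hx, z, hz, hxz⟩ := h1
      have hxA : x ∈ A := (Subgroup.closure_le _).2 hTs hx
      have hzA : z ∈ A := gam_anti H (Nat.le_succ j) hz
      have h2 : a = ⟨x, hxA⟩ * ⟨z, hzA⟩ := Subtype.ext hxz.symm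
      have h3 : ψ a = ψ ⟨x, hxA⟩ := by
        rw [h2, map_mul, (hψker ⟨z, hzA⟩).2 hz, mul_one]
      rw [h3]
      apply Subgroup.mem_map_of_mem
      have h4 : ∀ x (hx : x ∈ Subgroup.closure T) (hxA : x ∈ A),
          (⟨x, hxA⟩ : A) ∈ Subgroup.closure {a : A | (a : H) ∈ T} := by
        intro x hx
        induction hx using Subgroup.closure_induction with
        | mem x hx => intro hxA; exact Subgroup.subset_closure hx
        | one => intro _; exact Subgroup.one_mem _
        | mul x y hx hy ihx ihy =>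
          intro hxA
          have hx1 : x ∈ A := (Subgroup.closure_le _).2 hTs hx
          have hy1 : y ∈ A := (Subgroup.closure_le _).2 hTs hy
          exact Subgroup.mul_mem _ (ihx hx1) (ihy hy1)
        | inv x hx ih =>
          intro hxA
          have hx1 : x ∈ A := (Subgroup.closure_le _).2 hTs hx
          exact Subgroup.inv_mem _ (ih hx1)
      exact h4 x hx hxA
    · apply Set.Finite.image
      exact Set.Finite.preimage Subtype.val_injective.injOn hTf
  choose! g hg1 hg2 hg3 using hgex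
  -- apply rank lemma
  let g' : ℕ → A := fun i => if h : g i ∈ A then ⟨g i, h⟩ else 1
  have hg'v : ∀ i ∈ f ⁻¹' {y}, (g' i : H) = g i := by
    intro i hi
    show ((if h : g i ∈ A then (⟨g i, h⟩ : A) else 1 : A) : H) = g i
    rw [dif_pos (hg2 i hi)]
  refine rank_lemma hQfg ψ (fun i => (N i).subgroupOf A) ?_ (f ⁻¹' {y}) hI g' ?_ ?_
  · intro a b hab x hx
    rw [Subgroup.mem_subgroupOf] at *
    exact hanti hab hx
  · intro i hi
    rw [Subgroup.mem_subgroupOf, hg'v i hi]
    exact hg1 i hi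
  · intro i hi m hm hmem
    rw [Subgroup.mem_map] at hmem
    obtain ⟨n, hn, hne⟩ := hmem
    rw [Subgroup.mem_subgroupOf] at hn
    rw [← map_zpow] at hne
    have h1 : ψ (n⁻¹ * g' i ^ m) = 1 := by
      rw [map_mul, map_inv, hne, inv_mul_cancel]
    rw [hψker] at h1
    have e1 : ((n⁻¹ * g' i ^ m : A) : H) = (n : H)⁻¹ * (g i) ^ m := by
      push_cast
      rw [hg'v i hi]
    rw [e1] at h1
    have h2 : (n : H)⁻¹ * (g i) ^ m ∈ N i ⊓ gam H (j+1) :=
      ⟨(N i).mul_mem ((N i).inv_mem (hdec i hn)) ((N i).zpow_mem (hg1 i hi) m), h1⟩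
    have h3 : N i ⊓ gam H (j+1) = N (i+1) ⊓ gam H (j+1) := not_not.1 (hPj1 i hi)
    rw [h3] at h2
    have h4 : (g i) ^ m ∈ N (i+1) := by
      have := (N (i+1)).mul_mem hn h2.1
      rwa [mul_inv_cancel_left] at this
    exact hpow i (g i) (hg1 i hi) (hg3 i hi) m hm h4

end Pool.Agent.Helper277.ZG.Kos
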