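import Mathlib

set_option autoImplicit false
namespace Pool.Agent.Helper277.ZG.Kos

/-- polynomial functions `ℕ → V` -/
def PF {V : Type*} [AddCommGroup V] [Module ℚ V] (f : ℕ → V) : Prop :=
  ∃ (D : ℕ) (c : ℕ → V), ∀ s : ℕ, f s = ∑ r ∈ Finset.range D, ((s : ℚ) ^ r) • c r

/-- `f s = 1 + s • g s` with `g` polynomial and `g 0 = v` -/
def Jet {R : Type*} [Ring R] [Algebra ℚ R] (f : ℕ → R) (v : R) : Prop :=
  ∃ g : ℕ → R, PF g ∧ g 0 = v ∧ ∀ s : ℕ, f s = 1 + (s : ℚ) • g s

section
variable {V W : Type*} [AddCommGroup V] [Module ℚ V] [AddCommGroup W] [Module ℚ W]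
variable {R R' : Type*} [Ring R] [Algebra ℚ R] [Ring R'] [Algebra ℚ R']

theorem PF.const (v : V) : PF (fun _ => v) := by
  refine ⟨1, fun _ => v, fun s => ?_⟩
  simp

theorem PF.pad_aux (D D' : ℕ) (h : D ≤ D') (c : ℕ → V) (s : ℕ) :
    ∑ r ∈ Finset.range D, ((s : ℚ) ^ r) • c r =
      ∑ r ∈ Finset.range D', ((s : ℚ) ^ r) • (if r < D then c r else 0) := by
  rw [← Finset.sum_subset (Finset.range_subset_range.mpr h)]
  · apply Finset.sum_congr rfl
    intro r hr
    rw [if_pos (Finset.mem_range.mp hr)]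
  · intro r _ hr
    rw [if_neg (fun h => hr (Finset.mem_range.mpr h)), smul_zero]

theorem PF.add {f g : ℕ → V} (hf : PF f) (hg : PF g) : PF (fun s => f s + g s) := by
  obtain ⟨D, c, hc⟩ := hf
  obtain ⟨E, d, hd⟩ := hg
  refine ⟨max D E, fun r => (if r < D then c r else 0) + (if r < E then d r else 0), fun s => ?_⟩
  simp only [hc, hd, smul_add, Finset.sum_add_distrib]
  rw [PF.pad_aux D (max D E) (le_max_left _ _), PF.pad_aux E (max D E) (le_max_right _ _)]

theorem PF.neg {f : ℕ → V} (hf : PF f) : PF (fun s => - f s) := by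
  obtain ⟨D, c, hc⟩ := hf
  refine ⟨D, fun r => - c r, fun s => ?_⟩
  simp only [hc, smul_neg, Finset.sum_neg_distrib]

theorem PF.sub {f g : ℕ → V} (hf : PF f) (hg : PF g) : PF (fun s => f s - g s) := by
  simp only [sub_eq_add_neg]
  exact hf.add hg.neg

theorem PF.id_smul {f : ℕ → V} (hf : PF f) : PF (fun s : ℕ => (s : ℚ) • f s) := by
  obtain ⟨D, c, hc⟩ := hf
  refine ⟨D + 1, fun r => if r = 0 then 0 else c (r - 1), fun s => ?_⟩
  simp only [hc]
  rw [Finset.sum_range_succ', if_pos rfl, smul_zero, add_zero, Finset.smul_sum]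
  apply Finset.sum_congr rfl
  intro r _
  rw [if_neg (Nat.succ_ne_zero r), Nat.add_sub_cancel, smul_smul, pow_succ']

theorem PF.map (T : V →ₗ[ℚ] W) {f : ℕ → V} (hf : PF f) : PF (fun s => T (f s)) := by
  obtain ⟨D, c, hc⟩ := hf
  refine ⟨D, fun r => T (c r), fun s => ?_⟩
  simp only [hc, map_sum, map_smul]

theorem PF.sum_aux (n : ℕ) (F : ℕ → ℕ → V) (hF : ∀ r, PF (F r)) :
    PF (fun s => ∑ r ∈ Finset.range n, F r s) := by
  induction n with
  | zero => simpa using PF.const (0 : V)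
  | succ n ih =>
    simp only [Finset.sum_range_succ]
    exact ih.add (hF n)

theorem PF.mono_aux (r : ℕ) (v : V) : PF (fun s : ℕ => ((s : ℚ) ^ r) • v) := by
  induction r with
  | zero => simpa using PF.const v
  | succ r ih =>
    have := ih.id_smul
    simp only [smul_smul, ← pow_succ'] at this
    exact this

theorem PF.mul {f g : ℕ → R} (hf : PF f) (hg : PF g) : PF (fun s => f s * g s) := by
  obtain ⟨D, c, hc⟩ := hf
  obtain ⟨E, d, hd⟩ := hg
  simp only [hc, hd, Finset.sum_mul_sum, smul_mul_smul_comm, ← pow_add]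
  exact PF.sum_aux D _ (fun r => PF.sum_aux E (fun r' s => ((s : ℚ) ^ (r + r')) • (c r * d r'))
    (fun r' => PF.mono_aux _ _))

theorem PF.pow {f : ℕ → R} (hf : PF f) (n : ℕ) : PF (fun s => f s ^ n) := by
  induction n with
  | zero => simpa using PF.const (1 : R)
  | succ n ih =>
    simp only [pow_succ]
    exact ih.mul hf

theorem PF.apply {F : ℕ → Module.End ℚ V} (hF : PF F) (w : V) : PF (fun s => F s w) := by
  obtain ⟨D, c, hc⟩ := hF
  refine ⟨D, fun r => c r w, fun s => ?_⟩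
  simp only [hc, LinearMap.sum_apply, LinearMap.smul_apply]

theorem PF.natCast_aux : PF (fun s : ℕ => (s : ℚ)) := by
  refine ⟨2, fun r => if r = 1 then 1 else 0, fun s => ?_⟩
  simp [Finset.sum_range_succ]

/-- binomial coefficients `C(s, r + 1) / s` (extended polynomially to `s = 0`) -/
theorem PF.choose_div (r : ℕ) : ∃ g : ℕ → ℚ, PF g ∧
    ∀ s : ℕ, ((s.choose (r + 1) : ℕ) : ℚ) = (s : ℚ) * g s := by
  induction r with
  | zero => exact ⟨fun _ => 1, PF.const 1, fun s => by simp⟩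
  | succ r ih =>
    obtain ⟨g, hg, h⟩ := ih
    refine ⟨fun s => g s * (((s : ℚ) - ((r : ℚ) + 1)) * ((r : ℚ) + 2)⁻¹), ?_, fun s => ?_⟩
    · exact hg.mul ((PF.natCast_aux.sub (PF.const _)).mul (PF.const _))
    · have h1 := Nat.choose_succ_right_eq s (r + 1)
      have h2 : ((s.choose (r + 1 + 1) : ℕ) : ℚ) * (r + 2) =
          ((s.choose (r + 1) : ℕ) : ℚ) * ((s : ℚ) - (r + 1)) := by
        rcases le_or_gt (r + 1) s with hle | hlt
        · have h3 : (((s.choose (r + 1 + 1)) * (r + 1 + 1) : ℕ) : ℚ) =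
              ((s.choose (r + 1) * (s - (r + 1)) : ℕ) : ℚ) := by rw [h1]
          rw [Nat.cast_mul, Nat.cast_mul, Nat.cast_sub hle] at h3
          push_cast at h3
          linear_combination h3
        · rw [Nat.choose_eq_zero_of_lt hlt, Nat.choose_eq_zero_of_lt (by omega : s < r + 1 + 1)]
          simp
      have h4 : ((r : ℚ) + 2) ≠ 0 := by positivity
      have h5 : ((s.choose (r + 1 + 1) : ℕ) : ℚ) =
          ((s.choose (r + 1) : ℕ) : ℚ) * ((s : ℚ) - (r + 1)) * ((r : ℚ) + 2)⁻¹ := by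
        rw [← h2, mul_assoc, mul_inv_cancel₀ h4, mul_one]
      rw [h5, h]
      ring

/-- extraction: a polynomial function with values in a submodule for `s ≥ 1` has value at `0` in
the submodule -/
theorem PF.mem {f : ℕ → V} (hf : PF f) (S : Submodule ℚ V) (h : ∀ s, 1 ≤ s → f s ∈ S) :
    f 0 ∈ S := by
  rw [← Submodule.Quotient.mk_eq_zero, ← Module.forall_dual_apply_eq_zero_iff ℚ]
  intro φ
  obtain ⟨D, c, hc⟩ := hf.map (φ ∘ₗ S.mkQ)
  set p : Polynomial ℚ := ∑ r ∈ Finset.range D, Polynomial.C (c r) * Polynomial.X ^ r with hp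
  have he : ∀ s : ℕ, φ (Submodule.Quotient.mk (f s)) = p.eval (s : ℚ) := by
    intro s
    have := hc s
    simp only [LinearMap.comp_apply] at this
    rw [hp, Polynomial.eval_finsetSum]
    refine this.trans (Finset.sum_congr rfl fun r _ => ?_)
    rw [Polynomial.eval_mul, Polynomial.eval_C, Polynomial.eval_pow, Polynomial.eval_X,
      smul_eq_mul, mul_comm]
  have hp0 : p = 0 := by
    apply Polynomial.eq_zero_of_infinite_isRoot
    refine Set.Infinite.mono (s := (fun k : ℕ => ((k + 1 : ℕ) : ℚ)) '' Set.univ) ?_ ?_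
    · rintro _ ⟨k, -, rfl⟩
      show p.eval ((k + 1 : ℕ) : ℚ) = 0
      rw [← he, (Submodule.Quotient.mk_eq_zero S).mpr (h (k + 1) (by omega)), map_zero]
    · refine Set.infinite_univ.image ?_
      intro a _ b _ hab
      have : ((a + 1 : ℕ) : ℚ) = ((b + 1 : ℕ) : ℚ) := hab
      have := Nat.cast_injective this
      omega
  rw [he 0, hp0, Polynomial.eval_zero]

theorem Jet.unique {f : ℕ → R} {v w : R} (h1 : Jet f v) (h2 : Jet f w) : v = w := by
  obtain ⟨g, hg, hg0, hgf⟩ := h1
  obtain ⟨k, hk, hk0, hkf⟩ := h2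
  have := (hg.sub hk).mem (⊥ : Submodule ℚ R) (by
    intro s hs
    rw [Submodule.mem_bot, sub_eq_zero]
    have h := (hgf s).symm.trans (hkf s)
    have h3 := add_left_cancel h
    have hs0 : (s : ℚ) ≠ 0 := by
      have : s ≠ 0 := by omega
      exact_mod_cast this
    have h4 := congrArg (fun z => (s : ℚ)⁻¹ • z) h3
    simpa [smul_smul, inv_mul_cancel₀ hs0] using h4)
  rw [Submodule.mem_bot, sub_eq_zero, hg0, hk0] at this
  exact this

theorem Jet.one : Jet (fun _ => (1 : R)) 0 :=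
  ⟨fun _ => 0, PF.const 0, rfl, fun s => by simp⟩

theorem Jet.mul {f g : ℕ → R} {v w : R} (hf : Jet f v) (hg : Jet g w) :
    Jet (fun s => f s * g s) (v + w) := by
  obtain ⟨g1, h1, h10, h1f⟩ := hf
  obtain ⟨g2, h2, h20, h2f⟩ := hg
  refine ⟨fun s => g1 s + g2 s + (s : ℚ) • (g1 s * g2 s), (h1.add h2).add (h1.mul h2).id_smul,
    ?_, fun s => ?_⟩
  · simp [h10, h20]
  · simp only [h1f, h2f, mul_add, add_mul, one_mul, mul_one, smul_add, smul_mul_smul_comm,
      smul_smul]
    abel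

theorem Jet.conj {f : ℕ → R} {v a b : R} (hab : a * b = 1) (hf : Jet f v) :
    Jet (fun s => a * f s * b) (a * v * b) := by
  obtain ⟨g, hg, hg0, hgf⟩ := hf
  refine ⟨fun s => a * g s * b, ((PF.const a).mul hg).mul (PF.const b), by simp only [hg0], fun s => ?_⟩
  simp only [hgf, mul_add, add_mul, mul_one, hab, mul_smul_comm, smul_mul_assoc]

theorem Jet.algHom (T : R →ₐ[ℚ] R') {f : ℕ → R} {v : R} (hf : Jet f v) :
    Jet (fun s => T (f s)) (T v) := by
  obtain ⟨g, hg, hg0, hgf⟩ := hf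
  refine ⟨fun s => T (g s), hg.map T.toLinearMap, by simp only [hg0], fun s => ?_⟩
  simp only [hgf, map_add, map_one, map_smul]

/-- inverse of a polynomial family of unipotent elements -/
theorem Jet.inv {f g : ℕ → R} {v : R} (M : ℕ) (hf : Jet f v) (hg : ∀ s, f s * g s = 1)
    (hM : ∀ s, (f s - 1) ^ M = 0) : Jet g (-v) := by
  obtain ⟨G, hG, hG0, hGf⟩ := hf
  refine ⟨fun s => -(G s) * ∑ r ∈ Finset.range (M + 1), (-((s : ℚ) • G s)) ^ r, ?_, ?_,
    fun s => ?_⟩
  · exact hG.neg.mul (PF.sum_aux _ _ (fun r => (hG.id_smul.neg).pow r))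
  · simp only [hG0, Nat.cast_zero, zero_smul, neg_zero]
    rw [Finset.sum_range_succ', Finset.sum_eq_zero (fun r _ => zero_pow (Nat.succ_ne_zero r))]
    simp
  · set u : R := (s : ℚ) • G s with hu
    have hfu : f s = 1 + u := hGf s
    have hM' : u ^ M = 0 := by
      have := hM s
      rwa [hfu, add_sub_cancel_left] at this
    have hM2 : (-u) ^ (M + 2) = 0 := by
      rw [neg_pow, pow_add u, hM', zero_mul, mul_zero]
    have hgeom : (∑ r ∈ Finset.range (M + 2), (-u) ^ r) * (1 + u) = 1 := by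
      have h1 := geom_sum_mul (-u) (M + 2)
      rw [hM2] at h1
      have h2 : (1 : R) + u = -(-u - 1) := by abel
      rw [h2, mul_neg, h1]
      abel
    have hgs : g s = ∑ r ∈ Finset.range (M + 2), (-u) ^ r := by
      have h3 := hg s
      rw [hfu] at h3
      calc g s = ((∑ r ∈ Finset.range (M + 2), (-u) ^ r) * (1 + u)) * g s := by
            rw [hgeom, one_mul]
        _ = _ := by rw [mul_assoc, h3, mul_one]
    rw [hgs, Finset.sum_range_succ', pow_zero, add_comm]
    congr 1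
    simp only [Finset.mul_sum, Finset.smul_sum]
    apply Finset.sum_congr rfl
    intro r _
    rw [pow_succ', ← smul_mul_assoc, smul_neg]

/-- powers of a unipotent element -/
theorem Jet.pow_unipotent {x : R} {M : ℕ} (hx : (x - 1) ^ M = 0) :
    ∃ v : R, Jet (fun s => x ^ s) v := by
  choose g hg hgs using PF.choose_div
  set y : R := x - 1 with hy
  have hxy : x = y + 1 := by rw [hy]; abel
  have hyr : ∀ r, M ≤ r → y ^ r = 0 := by
    intro r hr
    obtain ⟨k, rfl⟩ := Nat.exists_eq_add_of_le hr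
    rw [pow_add, hx, zero_mul]
  refine ⟨_, fun s => ∑ r ∈ Finset.range M, (g r s) • y ^ (r + 1), ?_, rfl, fun s => ?_⟩
  · refine PF.sum_aux M _ (fun r => ?_)
    exact (hg r).map ((LinearMap.id : ℚ →ₗ[ℚ] ℚ).smulRight (y ^ (r + 1)))
  · have h1 : x ^ s = ∑ m ∈ Finset.range (s + 1), ((s.choose m : ℕ) : ℚ) • y ^ m := by
      rw [hxy, (Commute.one_right y).add_pow s]
      apply Finset.sum_congr rfl
      intro m _
      rw [one_pow, mul_one, Nat.cast_smul_eq_nsmul, nsmul_eq_mul, Nat.cast_comm]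
    have h2 : ∑ m ∈ Finset.range (s + 1), ((s.choose m : ℕ) : ℚ) • y ^ m
        = ∑ m ∈ Finset.range (s + 1 + (M + 1)), ((s.choose m : ℕ) : ℚ) • y ^ m := by
      apply Finset.sum_subset (Finset.range_subset_range.mpr (by omega))
      intro m _ hm
      rw [Finset.mem_range, not_lt] at hm
      rw [Nat.choose_eq_zero_of_lt (by omega), Nat.cast_zero, zero_smul]
    have h3 : ∑ m ∈ Finset.range (M + 1), ((s.choose m : ℕ) : ℚ) • y ^ m
        = ∑ m ∈ Finset.range (s + 1 + (M + 1)), ((s.choose m : ℕ) : ℚ) • y ^ m := by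
      apply Finset.sum_subset (Finset.range_subset_range.mpr (by omega))
      intro m _ hm
      rw [Finset.mem_range, not_lt] at hm
      rw [hyr m (by omega), smul_zero]
    simp only
    rw [h1, h2, ← h3, Finset.sum_range_succ', Nat.choose_zero_right, Nat.cast_one, one_smul,
      pow_zero, add_comm, Finset.smul_sum]
    congr 1
    apply Finset.sum_congr rfl
    intro r _
    rw [hgs r s, mul_smul]

end

end Pool.Agent.Helper277.ZG.Kos
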