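import Mathlib
import Pool.Agent.Helper277.ZG.Kos.PF

set_option autoImplicit false
namespace Pool.Agent.Helper277.ZG.Kos

section
variable {V W : Type*} [AddCommGroup V] [Module ℚ V] [AddCommGroup W] [Module ℚ W]
variable {R R' : Type*} [Ring R] [Algebra ℚ R] [Ring R'] [Algebra ℚ R']

end

theorem el_exp1 {A : Type*} [CommRing A] [Algebra ℚ A] {w : A} (hw : IsNilpotent w) :
    ∃ c, IsNilpotent.exp w = 1 + w * c := by
  obtain ⟨K, hK⟩ := hw
  have h : w ^ (K + 1) = 0 := by rw [pow_succ, hK, zero_mul]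
  rw [IsNilpotent.exp_eq_sum h, Finset.sum_range_succ']
  refine ⟨∑ i ∈ Finset.range K, ((i + 1).factorial : ℚ)⁻¹ • w ^ i, ?_⟩
  rw [Finset.mul_sum, add_comm]
  congr 1
  · simp
  · refine Finset.sum_congr rfl fun i _ => ?_
    rw [mul_smul_comm, pow_succ']

theorem el_exp2 {A : Type*} [CommRing A] [Algebra ℚ A] {w : A} (hw : IsNilpotent w) :
    ∃ c, IsNilpotent.exp w = 1 + w + w ^ 2 * c := by
  obtain ⟨K, hK⟩ := hw
  have h : w ^ (K + 2) = 0 := by rw [pow_add, hK, zero_mul]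
  rw [IsNilpotent.exp_eq_sum h, Finset.sum_range_succ', Finset.sum_range_succ']
  refine ⟨∑ i ∈ Finset.range K, ((i + 1 + 1).factorial : ℚ)⁻¹ • w ^ i, ?_⟩
  have e : ∑ k ∈ Finset.range K, ((k + 1 + 1).factorial : ℚ)⁻¹ • w ^ (k + 1 + 1) =
      w ^ 2 * ∑ i ∈ Finset.range K, ((i + 1 + 1).factorial : ℚ)⁻¹ • w ^ i := by
    rw [Finset.mul_sum]
    refine Finset.sum_congr rfl fun i _ => ?_
    rw [mul_smul_comm, ← pow_add]
    congr 2
    omega
  rw [e]
  simp
  ring

theorem el_log {A : Type*} [CommRing A] [Algebra ℚ A] {n : A} {M : ℕ} (hn : n ^ M = 0) :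
    ∃ v : A, n ∣ v ∧ IsNilpotent.exp v = 1 + n := by
  have hnil : ∀ v : A, n ∣ v → IsNilpotent v := by
    rintro v ⟨c, rfl⟩
    exact ⟨M, by rw [mul_pow, hn, zero_mul]⟩
  have key : ∀ k : ℕ, ∃ v : A, n ∣ v ∧ n ^ (k + 1) ∣ IsNilpotent.exp v - (1 + n) := by
    intro k
    induction k with
    | zero => exact ⟨0, dvd_zero _, by simp [IsNilpotent.exp_zero]⟩
    | succ k ih =>
      obtain ⟨v, hv, a, ha⟩ := ih
      have hw : n ∣ 1 + n - IsNilpotent.exp v := by
        have : 1 + n - IsNilpotent.exp v = -(n ^ (k + 1) * a) := by rw [← ha]; ring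
        rw [this, pow_succ', mul_assoc]
        exact (dvd_mul_right _ _).neg_right
      set w : A := 1 + n - IsNilpotent.exp v with hwdef
      have hw2 : w = -(n ^ (k + 1) * a) := by rw [← ha, hwdef]; ring
      refine ⟨v + w, dvd_add hv hw, ?_⟩
      rw [IsNilpotent.exp_add_of_commute (Commute.all _ _) (hnil v hv) (hnil w hw)]
      obtain ⟨c1, hc1⟩ := el_exp1 (hnil v hv)
      obtain ⟨c2, hc2⟩ := el_exp2 (hnil w hw)
      obtain ⟨b, hb⟩ := hv
      have e : IsNilpotent.exp v * IsNilpotent.exp w - (1 + n) =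
          IsNilpotent.exp v * (w ^ 2 * c2) + (IsNilpotent.exp v - 1) * w := by
        have e1 : (1 + n : A) = IsNilpotent.exp v + w := by rw [hwdef]; ring
        rw [e1, hc2]; ring
      rw [e]
      apply dvd_add
      · refine Dvd.dvd.mul_left (Dvd.dvd.mul_right ?_ _) _
        rw [hw2, neg_sq, mul_pow, ← pow_mul]
        refine Dvd.dvd.mul_right (pow_dvd_pow n ?_) _
        omega
      · rw [hc1, hw2, hb]
        exact ⟨-(b * c1 * a), by ring⟩
  obtain ⟨v, hv, hv2⟩ := key M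
  refine ⟨v, hv, ?_⟩
  rw [pow_succ, hn, zero_mul, zero_dvd_iff] at hv2
  exact sub_eq_zero.mp hv2

theorem el_exp_pow {R : Type*} [Ring R] [Algebra ℚ R] {v : R} (hv : IsNilpotent v) (s : ℕ) :
    IsNilpotent.exp v ^ s = IsNilpotent.exp ((s : ℚ) • v) := by
  induction s with
  | zero => simp [IsNilpotent.exp_zero]
  | succ s ih =>
    have h1 : ((s + 1 : ℕ) : ℚ) • v = (s : ℚ) • v + v := by
      push_cast; rw [add_smul, one_smul]
    rw [pow_succ, ih, h1, IsNilpotent.exp_add_of_commute _ (hv.smul _) hv]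
    exact (Commute.refl v).smul_left _

theorem el_jet {R : Type*} [Ring R] [Algebra ℚ R] {v : R} (hv : IsNilpotent v) :
    Jet (fun s => IsNilpotent.exp v ^ s) v := by
  obtain ⟨K, hK⟩ := hv
  have hK2 : v ^ (K + 2) = 0 := by rw [pow_add, hK, zero_mul]
  refine ⟨fun s => ∑ r ∈ Finset.range (K + 1),
    ((s : ℚ) ^ r) • (((r + 1).factorial : ℚ)⁻¹ • v ^ (r + 1)), ⟨K + 1, _, fun s => rfl⟩, ?_, ?_⟩
  · show ∑ r ∈ Finset.range (K + 1),
      (((0 : ℕ) : ℚ) ^ r) • (((r + 1).factorial : ℚ)⁻¹ • v ^ (r + 1)) = v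
    rw [Finset.sum_range_succ', Finset.sum_eq_zero]
    · simp
    · intro r _
      simp
  · intro s
    show IsNilpotent.exp v ^ s = _
    rw [el_exp_pow ⟨K, hK⟩]
    have h2 : ((s : ℚ) • v) ^ (K + 2) = 0 := by rw [smul_pow, hK2, smul_zero]
    rw [IsNilpotent.exp_eq_sum h2, Finset.sum_range_succ', add_comm]
    congr 1
    · simp
    · rw [Finset.smul_sum]
      refine Finset.sum_congr rfl fun r _ => ?_
      rw [smul_pow, smul_smul, smul_smul, smul_smul]
      congr 1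
      rw [pow_succ]; ring

theorem exp_log {R : Type*} [Ring R] [Algebra ℚ R] {x v : R} {M : ℕ} (hx : (x - 1) ^ M = 0)
    (hv : Jet (fun s => x ^ s) v) :
    IsNilpotent v ∧ IsNilpotent.exp v = x ∧ ∀ y : R, Commute x y → Commute v y := by
  have hcomm : ∀ a ∈ ({x - 1} : Set R), ∀ b ∈ ({x - 1} : Set R), a * b = b * a := by
    intro a ha b hb
    rw [Set.mem_singleton_iff] at ha hb
    rw [ha, hb]
  letI := Algebra.adjoinCommRingOfComm ℚ hcomm
  have hmem : x - 1 ∈ Algebra.adjoin ℚ ({x - 1} : Set R) := Algebra.subset_adjoin rfl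
  set n : Algebra.adjoin ℚ ({x - 1} : Set R) := ⟨x - 1, hmem⟩ with hn
  have hnM : n ^ M = 0 := by
    apply Subtype.ext
    simpa [hn] using hx
  obtain ⟨v', hv1, hv2⟩ := el_log hnM
  have hnil' : IsNilpotent v' := by
    obtain ⟨c, hc⟩ := hv1
    exact ⟨M, by rw [hc, mul_pow, hnM, zero_mul]⟩
  have hnil : IsNilpotent (v' : R) := hnil'.map (Algebra.adjoin ℚ ({x - 1} : Set R)).val
  have hexp : IsNilpotent.exp (v' : R) = x := by
    have h1 := IsNilpotent.map_exp hnil' (Algebra.adjoin ℚ ({x - 1} : Set R)).val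
    have h2 : (Algebra.adjoin ℚ ({x - 1} : Set R)).val (IsNilpotent.exp v') = x := by
      rw [hv2]
      simp [hn]
    rw [h2] at h1
    exact h1.symm
  have hjet := el_jet hnil
  rw [hexp] at hjet
  have hvv : v = v' := Jet.unique hv hjet
  rw [hvv]
  refine ⟨hnil, hexp, fun y hy => ?_⟩
  have hle : Algebra.adjoin ℚ ({x - 1} : Set R) ≤ Subalgebra.centralizer ℚ {y} := by
    apply Algebra.adjoin_le
    intro a ha
    rw [Set.mem_singleton_iff] at ha
    rw [ha]
    show x - 1 ∈ Subalgebra.centralizer ℚ {y}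
    rw [Subalgebra.mem_centralizer_iff]
    intro g hg
    rw [Set.mem_singleton_iff] at hg
    rw [hg, mul_sub, sub_mul, mul_one, one_mul, hy.eq]
  have h3 := hle v'.2
  rw [Subalgebra.mem_centralizer_iff] at h3
  exact (h3 y rfl).symm

end Pool.Agent.Helper277.ZG.Kos
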