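import Mathlib
import Pool.Agent.Helper277.ZG.Kos.PF
import Pool.Agent.Helper277.ZG.Kos.LogLie

set_option autoImplicit false
namespace Pool.Agent.Helper277.ZG.Kos

section
variable {V W : Type*} [AddCommGroup V] [Module ℚ V] [AddCommGroup W] [Module ℚ W]
variable {R R' : Type*} [Ring R] [Algebra ℚ R] [Ring R'] [Algebra ℚ R']

end

section engel

variable {R : Type*} [Ring R] [Algebra ℚ R]

/-- left multiplication -/
noncomputable def eTL (R : Type*) [Ring R] [Algebra ℚ R] : R →ₗ[ℚ] Module.End ℚ R :=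
  LinearMap.mul ℚ R

/-- right multiplication -/
noncomputable def eTR (R : Type*) [Ring R] [Algebra ℚ R] : R →ₗ[ℚ] Module.End ℚ R :=
  (LinearMap.mul ℚ R).flip

theorem eTL_apply (x w : R) : eTL R x w = x * w := rfl
theorem eTR_apply (x w : R) : eTR R x w = w * x := rfl

/-- `ad` -/
noncomputable def ead (u : R) : Module.End ℚ R := eTL R u - eTR R u

theorem ead_apply (u w : R) : ead u w = u * w - w * u := rfl

theorem Jet.lin {R' : Type*} [Ring R'] [Algebra ℚ R'] (T : R →ₗ[ℚ] R') (hT : T 1 = 1)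
    {f : ℕ → R} {v : R} (hf : Jet f v) : Jet (fun s => T (f s)) (T v) := by
  obtain ⟨g, hg, hg0, hfg⟩ := hf
  refine ⟨fun s => T (g s), hg.map T, by beta_reduce; rw [hg0], fun s => ?_⟩
  beta_reduce
  rw [hfg, map_add, map_smul, hT]

variable {H : Type*} [Group H] (ρ : H →* R)

/-- `Ad` -/
noncomputable def eAd (g : H) : Module.End ℚ R := eTL R (ρ g) * eTR R (ρ g⁻¹)

theorem eAd_apply (g : H) (w : R) : eAd ρ g w = ρ g * (w * ρ g⁻¹) := rfl

theorem eAd_mul (g h : H) : eAd ρ (g * h) = eAd ρ g * eAd ρ h := by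
  refine LinearMap.ext fun w => ?_
  rw [Module.End.mul_apply, eAd_apply, eAd_apply, eAd_apply, mul_inv_rev, map_mul, map_mul]
  simp only [mul_assoc]

theorem eAd_one : eAd ρ (1 : H) = 1 := by
  refine LinearMap.ext fun w => ?_
  rw [eAd_apply, inv_one, map_one, mul_one, one_mul]
  rfl

variable {ρ}

theorem eng_A (M : ℕ) (hM : ∀ l : List H, l.length = M → (l.map (fun g => ρ g - 1)).prod = 0)
    (v : H → R) (hv : ∀ h, Jet (fun s => ρ h ^ s) (v h)) (k : ℕ)
    (hE : ∀ x y : H, (fun z : H => z⁻¹ * y⁻¹ * z * y)^[k] x = 1) (g : H) :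
    ∀ w ∈ Submodule.span ℚ (Set.range v), ((eAd ρ g - 1) ^ k) w = 0 := by
  have hMM : ∀ h : H, (ρ h - 1) ^ M = 0 := by
    intro h
    have := hM (List.replicate M h) (by simp)
    simpa using this
  have key : ∀ x : H, ((eAd ρ g - 1) ^ k) (v x) = 0 := by
    intro x
    obtain ⟨y, hy⟩ : ∃ y, y = g⁻¹ := ⟨_, rfl⟩
    have hjet : ∀ i : ℕ, Jet (fun s : ℕ => ρ ((fun z : H => z⁻¹ * y⁻¹ * z * y)^[i] (x ^ s)))
        (((eAd ρ g - 1) ^ i) (v x)) := by
      intro i
      induction i with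
      | zero =>
        have := hv x
        simpa using this
      | succ i ih =>
        obtain ⟨z, hz⟩ : ∃ z : ℕ → H,
            z = fun s => (fun z : H => z⁻¹ * y⁻¹ * z * y)^[i] (x ^ s) := ⟨_, rfl⟩
        obtain ⟨vi, hvi⟩ : ∃ vi, vi = ((eAd ρ g - 1) ^ i) (v x) := ⟨_, rfl⟩
        have ih' : Jet (fun s : ℕ => ρ (z s)) vi := by rw [hz, hvi]; exact ih
        have j1 : Jet (fun s : ℕ => ρ (z s)⁻¹) (-vi) :=
          ih'.inv M (fun s => by rw [← map_mul, mul_inv_cancel, map_one]) (fun s => hMM _)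
        have j2 : Jet (fun s : ℕ => ρ y⁻¹ * ρ (z s) * ρ y) (ρ y⁻¹ * vi * ρ y) :=
          ih'.conj (by rw [← map_mul, inv_mul_cancel, map_one])
        have j3 := j1.mul j2
        have e1 : (fun s : ℕ => ρ (z s)⁻¹ * (ρ y⁻¹ * ρ (z s) * ρ y)) =
            fun s : ℕ => ρ ((fun z : H => z⁻¹ * y⁻¹ * z * y)^[i + 1] (x ^ s)) := by
          funext s
          rw [Function.iterate_succ_apply']
          have : (fun z : H => z⁻¹ * y⁻¹ * z * y)^[i] (x ^ s) = z s := by rw [hz]
          rw [this]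
          simp only [map_mul, mul_assoc]
        have e2 : -vi + ρ y⁻¹ * vi * ρ y = ((eAd ρ g - 1) ^ (i + 1)) (v x) := by
          rw [pow_succ', Module.End.mul_apply, ← hvi, LinearMap.sub_apply, eAd_apply, hy, inv_inv,
            Module.End.one_apply]
          rw [mul_assoc]
          abel
        rw [e1, e2] at j3
        exact j3
    have hk := hjet k
    have e3 : (fun s : ℕ => ρ ((fun z : H => z⁻¹ * y⁻¹ * z * y)^[k] (x ^ s))) =
        fun _ => (1 : R) := by
      funext s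
      rw [hE, map_one]
    rw [e3] at hk
    exact hk.unique Jet.one
  intro w hw
  induction hw using Submodule.span_induction with
  | mem w hw =>
    obtain ⟨x, rfl⟩ := hw
    exact key x
  | zero => exact map_zero _
  | add a b _ _ ha hb => rw [map_add, ha, hb, add_zero]
  | smul q a _ ha => rw [map_smul, ha, smul_zero]

theorem eng_jet (v : H → R) (hv : ∀ h, Jet (fun s => ρ h ^ s) (v h))
    (hinv : ∀ h, v h⁻¹ = - v h) (l : List H) :
    Jet (fun s : ℕ => eAd ρ ((l.map (fun h => h ^ s)).prod)) (ead ((l.map v).sum)) := by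
  induction l with
  | nil =>
    have e1 : (fun s : ℕ => eAd ρ ((([] : List H).map (fun h => h ^ s)).prod)) =
        fun _ => (1 : Module.End ℚ R) := by
      funext s
      rw [List.map_nil, List.prod_nil, eAd_one]
    have e2 : ead ((([] : List H).map v).sum) = (0 : Module.End ℚ R) := by
      rw [List.map_nil, List.sum_nil]
      simp [ead]
    rw [e1, e2]
    exact Jet.one
  | cons h l ih =>
    have j1 : Jet (fun s : ℕ => eTL R (ρ h ^ s)) (eTL R (v h)) :=
      (hv h).lin (eTL R) (by refine LinearMap.ext fun w => ?_; rw [eTL_apply, one_mul]; rfl)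
    have j2 : Jet (fun s : ℕ => eTR R (ρ h⁻¹ ^ s)) (eTR R (v h⁻¹)) :=
      (hv h⁻¹).lin (eTR R) (by refine LinearMap.ext fun w => ?_; rw [eTR_apply, mul_one]; rfl)
    have j3 := (j1.mul j2).mul ih
    have e1 : (fun s : ℕ => eTL R (ρ h ^ s) * eTR R (ρ h⁻¹ ^ s) *
        eAd ρ ((l.map (fun h => h ^ s)).prod)) =
        fun s : ℕ => eAd ρ (((h :: l).map (fun h => h ^ s)).prod) := by
      funext s
      rw [List.map_cons, List.prod_cons, eAd_mul]
      congr 1
      unfold eAd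
      rw [← inv_pow, map_pow ρ, map_pow ρ]
    have e2 : eTL R (v h) + eTR R (v h⁻¹) + ead ((l.map v).sum) =
        ead (((h :: l).map v).sum) := by
      rw [List.map_cons, List.sum_cons, hinv]
      unfold ead
      rw [map_neg, map_add, map_add]
      abel
    rw [e1, e2] at j3
    exact j3

theorem eng_B (M : ℕ) (hM : ∀ l : List H, l.length = M → (l.map (fun g => ρ g - 1)).prod = 0)
    (v : H → R) (hv : ∀ h, Jet (fun s => ρ h ^ s) (v h))
    (hinv : ∀ h, v h⁻¹ = - v h) (k : ℕ)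
    (hE : ∀ x y : H, (fun z : H => z⁻¹ * y⁻¹ * z * y)^[k] x = 1) (l : List H) :
    ∀ w ∈ Submodule.span ℚ (Set.range v), (ead ((l.map v).sum) ^ k) w = 0 := by
  intro w hw
  obtain ⟨G, hG, hG0, hGs⟩ := eng_jet v hv hinv l
  beta_reduce at hGs
  have h1 : ∀ s : ℕ, 1 ≤ s → (G s ^ k) w = 0 := by
    intro s hs
    have h2 := eng_A M hM v hv k hE ((l.map (fun h => h ^ s)).prod) w hw
    rw [hGs, add_sub_cancel_left, smul_pow, LinearMap.smul_apply] at h2
    have hs0 : ((s : ℚ) ^ k) ≠ 0 := by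
      apply pow_ne_zero
      have : s ≠ 0 := by omega
      exact_mod_cast this
    exact (smul_eq_zero.1 h2).resolve_left hs0
  have h2 := ((hG.pow k).apply w).mem (⊥ : Submodule ℚ R) (fun s hs => by
    rw [Submodule.mem_bot]
    exact h1 s hs)
  rw [Submodule.mem_bot, hG0] at h2
  exact h2

theorem eng_C (v : H → R) (hinv : ∀ h, v h⁻¹ = - v h) :
    ∀ u ∈ Submodule.span ℚ (Set.range v), ∃ (D : ℕ) (l : List H), 1 ≤ D ∧
      (D : ℚ) • u = (l.map v).sum := by
  obtain ⟨T, hT⟩ : ∃ T : AddSubgroup R, ∀ u, u ∈ T ↔ ∃ l : List H, u = (l.map v).sum := by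
    refine ⟨{ carrier := {u | ∃ l : List H, u = (l.map v).sum}
              add_mem' := ?_
              zero_mem' := ⟨[], by simp⟩
              neg_mem' := ?_ }, fun u => Iff.rfl⟩
    · rintro a b ⟨l1, rfl⟩ ⟨l2, rfl⟩
      exact ⟨l1 ++ l2, by simp⟩
    · rintro a ⟨l, rfl⟩
      refine ⟨l.map (fun h => h⁻¹), ?_⟩
      induction l with
      | nil => simp
      | cons h l ih =>
        rw [List.map_cons, List.sum_cons, neg_add, ih, List.map_cons, List.map_cons, List.sum_cons,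
          hinv]
  have key : ∀ u ∈ Submodule.span ℚ (Set.range v), ∃ D : ℕ, 1 ≤ D ∧ (D : ℚ) • u ∈ T := by
    intro u hu
    induction hu using Submodule.span_induction with
    | mem w hw =>
      obtain ⟨x, rfl⟩ := hw
      refine ⟨1, le_rfl, ?_⟩
      rw [Nat.cast_one, one_smul, hT]
      exact ⟨[x], by simp⟩
    | zero => exact ⟨1, le_rfl, by rw [smul_zero]; exact T.zero_mem⟩
    | add a b _ _ ha hb =>
      obtain ⟨D1, h1, h2⟩ := ha
      obtain ⟨D2, h3, h4⟩ := hb
      refine ⟨D1 * D2, Nat.one_le_iff_ne_zero.2 (Nat.mul_ne_zero (by omega) (by omega)), ?_⟩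
      have e : ((D1 * D2 : ℕ) : ℚ) • (a + b) = D2 • ((D1 : ℚ) • a) + D1 • ((D2 : ℚ) • b) := by
        rw [← Nat.cast_smul_eq_nsmul ℚ, ← Nat.cast_smul_eq_nsmul ℚ, smul_smul, smul_smul,
          smul_add]
        push_cast
        rw [mul_comm (D2 : ℚ) (D1 : ℚ)]
      rw [e]
      exact T.add_mem (T.nsmul_mem h2 _) (T.nsmul_mem h4 _)
    | smul q a _ ha =>
      obtain ⟨D, h1, h2⟩ := ha
      refine ⟨D * q.den, Nat.one_le_iff_ne_zero.2 (Nat.mul_ne_zero (by omega) q.den_nz), ?_⟩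
      have e : ((D * q.den : ℕ) : ℚ) • (q • a) = q.num • ((D : ℚ) • a) := by
        rw [← Int.cast_smul_eq_zsmul ℚ, smul_smul, smul_smul]
        congr 1
        push_cast
        have := Rat.mul_den_eq_num q
        linear_combination (D : ℚ) * this
      rw [e]
      exact T.zsmul_mem h2 _
  intro u hu
  obtain ⟨D, hD, h⟩ := key u hu
  obtain ⟨l, hl⟩ := (hT _).1 h
  exact ⟨D, l, hD, hl⟩

end engel

/-- TARGET -/
theorem log_span_engel {H : Type*} [Group H] {R : Type*} [Ring R] [Algebra ℚ R] (ρ : H →* R)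
    (M : ℕ) (hM : ∀ l : List H, l.length = M → (l.map (fun g => ρ g - 1)).prod = 0)
    (v : H → R) (hv : ∀ h, Jet (fun s => ρ h ^ s) (v h)) (k : ℕ)
    (hE : ∀ x y : H, (fun z : H => z⁻¹ * y⁻¹ * z * y)^[k] x = 1) :
    ∀ u ∈ Submodule.span ℚ (Set.range v), ∀ w ∈ Submodule.span ℚ (Set.range v),
      (fun z : R => u * z - z * u)^[k] w = 0 := by
  intro u hu w hw
  have hinv := (log_span_lie ρ M hM v hv).1
  obtain ⟨D, l, hD, hl⟩ := eng_C v hinv u hu
  have h1 := eng_B M hM v hv hinv k hE l w hw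
  rw [← hl] at h1
  have e1 : ead ((D : ℚ) • u) = (D : ℚ) • ead u := by
    unfold ead
    rw [map_smul, map_smul, smul_sub]
  rw [e1, smul_pow, LinearMap.smul_apply] at h1
  have hD0 : ((D : ℚ) ^ k) ≠ 0 := by
    apply pow_ne_zero
    have : D ≠ 0 := by omega
    exact_mod_cast this
  have h2 := (smul_eq_zero.1 h1).resolve_left hD0
  rw [Module.End.pow_apply] at h2
  exact h2

end Pool.Agent.Helper277.ZG.Kos
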