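import Mathlib

set_option autoImplicit false
namespace Pool.Agent.Helper277.ZG.Kos

/-- stability groups of chains are nilpotent -/
theorem stability {H : Type*} [Group H] {V : Type*} [AddCommGroup V] [Module ℚ V]
    (τ : H →* Module.End ℚ V) (W : ℕ → Submodule ℚ V) (hW : Antitone W)
    (h1 : ∀ (g : H) (j : ℕ), ∀ w ∈ W j, τ g w - w ∈ W (j + 1)) :
    ∀ i : ℕ, ∀ g ∈ Subgroup.lowerCentralSeries (⊤ : Subgroup H) i, ∀ j : ℕ, ∀ w ∈ W j,
      τ g w - w ∈ W (j + i + 1) := by
  have hmul : ∀ (g h : H) (w : V), τ (g * h) w = τ g (τ h w) := by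
    intro g h w
    rw [map_mul]; rfl
  have hpres : ∀ (g : H) (j : ℕ), ∀ w ∈ W j, τ g w ∈ W j := by
    intro g j w hw
    have h2 := hW (Nat.le_succ j) (h1 g j w hw)
    have h3 := (W j).add_mem h2 hw
    simpa using h3
  -- the subgroups
  let K : ℕ → Subgroup H := fun i =>
    { carrier := {g | ∀ j : ℕ, ∀ w ∈ W j, τ g w - w ∈ W (j + i + 1)}
      mul_mem' := by
        intro a b ha hb j w hw
        rw [hmul]
        have h2 : τ a (τ b w) - w = (τ a (τ b w) - τ b w) + (τ b w - w) := by abel
        rw [h2]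
        exact (W _).add_mem (ha j _ (hpres b j w hw)) (hb j w hw)
      one_mem' := by
        intro j w _
        rw [map_one, Module.End.one_apply, sub_self]
        exact (W _).zero_mem
      inv_mem' := by
        intro a ha j w hw
        have h2 := ha j _ (hpres a⁻¹ j w hw)
        rw [← hmul, mul_inv_cancel, map_one, Module.End.one_apply] at h2
        have h3 := (W _).neg_mem h2
        rwa [neg_sub] at h3 }
  have hK : ∀ i g, g ∈ K i ↔ ∀ j : ℕ, ∀ w ∈ W j, τ g w - w ∈ W (j + i + 1) :=
    fun i g => Iff.rfl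
  have main : ∀ i : ℕ, Subgroup.lowerCentralSeries (⊤ : Subgroup H) i ≤ K i := by
    intro i
    induction i with
    | zero =>
      intro g _
      exact fun j w hw => h1 g j w hw
    | succ i ih =>
      rw [Subgroup.lowerCentralSeries_succ, Subgroup.commutator_le]
      intro g hg h _
      have hg' := (hK i g).1 (ih hg)
      rw [commutatorElement_def]
      refine (hK _ _).2 ?_
      intro j w hw
      obtain ⟨u, hu⟩ : ∃ u, u = τ (g⁻¹ * h⁻¹) w := ⟨_, rfl⟩
      have huW : u ∈ W j := by rw [hu]; exact hpres _ j w hw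
      have hw1 : w = τ h (τ g u) := by
        rw [← hmul, hu, ← hmul]
        have : h * g * (g⁻¹ * h⁻¹) = 1 := by group
        rw [this, map_one, Module.End.one_apply]
      have hw2 : τ (g * h * g⁻¹ * h⁻¹) w = τ g (τ h u) := by
        rw [← hmul, hu, ← hmul]
        congr 2
        group
      have h2 : τ (g * h * g⁻¹ * h⁻¹) w - w = (τ g (τ h u - u) - (τ h u - u)) - (τ h (τ g u - u) - (τ g u - u)) := by
        rw [hw2]
        conv_lhs => rw [hw1]
        rw [map_sub, map_sub]
        abel
      rw [h2]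
      have e1 : j + (i + 1) + 1 = j + 1 + i + 1 := by omega
      have h3 : τ g (τ h u - u) - (τ h u - u) ∈ W (j + (i + 1) + 1) := by
        rw [e1]
        exact hg' (j + 1) _ (h1 h j u huW)
      have h4 : τ h (τ g u - u) - (τ g u - u) ∈ W (j + (i + 1) + 1) :=
        h1 h (j + i + 1) _ (hg' j u huW)
      exact (W _).sub_mem h3 h4
  intro i g hg
  exact (hK i g).1 (main i hg)

end Pool.Agent.Helper277.ZG.Kos
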