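import Mathlib
import Pool.Agent.Helper277.ZG.Kos.PF
import Pool.Agent.Helper277.ZG.Kos.ExpLog
import Pool.Agent.Helper277.ZG.Kos.Stab
import Pool.Agent.Helper277.ZG.Kos.LogLie
import Pool.Agent.Helper277.ZG.Kos.LogEngel

set_option autoImplicit false
namespace Pool.Agent.Helper277.ZG.Kos

section
variable {V W : Type*} [AddCommGroup V] [Module ℚ V] [AddCommGroup W] [Module ℚ W]
variable {R R' : Type*} [Ring R] [Algebra ℚ R] [Ring R'] [Algebra ℚ R']

end

theorem Jet.lin' {R R' : Type*} [Ring R] [Algebra ℚ R] [Ring R'] [Algebra ℚ R'] (T : R →ₗ[ℚ] R') (h1 : T 1 = 1)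
    {f : ℕ → R} {v : R} (hf : Jet f v) : Jet (fun s => T (f s)) (T v) := by
  obtain ⟨g, hg, h0, hs⟩ := hf
  refine ⟨fun s => T (g s), hg.map T, by simp [h0], fun s => ?_⟩
  simp only [hs, map_add, map_smul, h1]

/-- conjugation action -/
def conjEnd {H : Type*} [Group H] {R : Type*} [Ring R] [Algebra ℚ R] (ρ : H →* R) : H →* Module.End ℚ R where
  toFun g := LinearMap.mulLeft ℚ (ρ g) * LinearMap.mulRight ℚ (ρ g⁻¹)
  map_one' := by
    ext w
    simp
  map_mul' g h := by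
    ext w
    simp [mul_assoc]

theorem conjEnd_apply {H : Type*} [Group H] {R : Type*} [Ring R] [Algebra ℚ R] (ρ : H →* R) (g : H) (w : R) :
    conjEnd ρ g w = ρ g * w * ρ g⁻¹ := by
  simp [conjEnd, mul_assoc]

theorem conjEnd_exp {H : Type*} [Group H] {R : Type*} [Ring R] [Algebra ℚ R] (ρ : H →* R) (M : ℕ)
    (hM : ∀ g : H, (ρ g - 1) ^ M = 0) (v : H → R) (hv : ∀ h, Jet (fun s => ρ h ^ s) (v h)) (g : H)
    (hinv : v g⁻¹ = - v g) :
    ∃ N : ℕ, conjEnd ρ g = ∑ i ∈ Finset.range N, (i.factorial : ℚ)⁻¹ •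
      ((LinearMap.mulLeft ℚ (v g) + LinearMap.mulRight ℚ (- v g) : Module.End ℚ R) ^ i) := by
  have hL : IsNilpotent (LinearMap.mulLeft ℚ (ρ g) - 1 : Module.End ℚ R) := by
    refine ⟨M, ?_⟩
    have : (LinearMap.mulLeft ℚ (ρ g) - 1 : Module.End ℚ R) = LinearMap.mulLeft ℚ (ρ g - 1) := by
      ext w; simp [sub_mul]
    rw [this, LinearMap.pow_mulLeft, hM g]
    ext w; simp
  have hR : IsNilpotent (LinearMap.mulRight ℚ (ρ g⁻¹) - 1 : Module.End ℚ R) := by
    refine ⟨M, ?_⟩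
    have : (LinearMap.mulRight ℚ (ρ g⁻¹) - 1 : Module.End ℚ R) = LinearMap.mulRight ℚ (ρ g⁻¹ - 1) := by
      ext w; simp [mul_sub]
    rw [this, LinearMap.pow_mulRight, hM g⁻¹]
    ext w; simp
  have hc : Commute (LinearMap.mulLeft ℚ (ρ g) : Module.End ℚ R) (LinearMap.mulRight ℚ (ρ g⁻¹)) :=
    LinearMap.commute_mulLeft_right _ _
  have hnil : IsNilpotent (conjEnd ρ g - 1) := by
    have e : conjEnd ρ g - 1 = (LinearMap.mulLeft ℚ (ρ g) - 1 : Module.End ℚ R) * LinearMap.mulRight ℚ (ρ g⁻¹)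
        + (LinearMap.mulRight ℚ (ρ g⁻¹) - 1) := by
      show LinearMap.mulLeft ℚ (ρ g) * LinearMap.mulRight ℚ (ρ g⁻¹) - 1 = _
      rw [sub_mul, one_mul]; abel
    rw [e]
    have c1 : Commute (LinearMap.mulLeft ℚ (ρ g) - 1 : Module.End ℚ R) (LinearMap.mulRight ℚ (ρ g⁻¹)) :=
      hc.sub_left (Commute.one_left _)
    apply Commute.isNilpotent_add
    · apply Commute.sub_right _ (Commute.one_right _)
      exact c1.mul_left (Commute.refl _)
    · exact c1.isNilpotent_mul_right hL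
    · exact hR
  obtain ⟨M', hM'⟩ := hnil
  have hjet : Jet (fun s => (conjEnd ρ g) ^ s) (LinearMap.mulLeft ℚ (v g) + LinearMap.mulRight ℚ (- v g) : Module.End ℚ R) := by
    have j1 : Jet (fun s => (LinearMap.mulLeft ℚ (ρ g ^ s) : Module.End ℚ R)) (LinearMap.mulLeft ℚ (v g)) := by
      have := Jet.lin' (LinearMap.mul ℚ R) (by ext w; simp) (hv g)
      exact this
    have j2 : Jet (fun s => (LinearMap.mulRight ℚ (ρ g⁻¹ ^ s) : Module.End ℚ R)) (LinearMap.mulRight ℚ (- v g)) := by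
      have := Jet.lin' (LinearMap.mul ℚ R).flip (by ext w; simp) (hv g⁻¹)
      rw [hinv] at this
      exact this
    have j3 := j1.mul j2
    have e : (fun s => (conjEnd ρ g) ^ s) = fun s => (LinearMap.mulLeft ℚ (ρ g ^ s) : Module.End ℚ R) * LinearMap.mulRight ℚ (ρ g⁻¹ ^ s) := by
      funext s
      show (LinearMap.mulLeft ℚ (ρ g) * LinearMap.mulRight ℚ (ρ g⁻¹)) ^ s = _
      rw [hc.mul_pow, LinearMap.pow_mulLeft, LinearMap.pow_mulRight]
    rw [e]
    exact j3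
  obtain ⟨⟨N, hN⟩, hexp, -⟩ := exp_log hM' hjet
  exact ⟨N, by rw [← hexp, IsNilpotent.exp_eq_sum hN]⟩


end Pool.Agent.Helper277.ZG.Kos
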