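import Mathlib
import Pool.Agent.Helper277.ZG.Kos.Lift
import Pool.Agent.Helper277.ZG.Kos.KerFg
import Pool.Agent.Helper277.ZG.Kos.NoChain
import Pool.Agent.Helper277.ZG.Kos.UClass

set_option autoImplicit false
namespace Pool.Agent.Helper277.ZG.Kos

theorem UDetect.equiv {G G' : Type} [Group G] [Group G'] (e : G ≃* G') {t : G}
    (h : UDetect G t) : UDetect G' (e t) := by
  obtain ⟨R, i1, i2, ρ, M, hM, ht⟩ := h
  refine ⟨R, i1, i2, ρ.comp e.symm.toMonoidHom, M, ?_, ?_⟩
  · intro l hl
    have := hM (l.map e.symm) (by simpa using hl)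
    rw [List.map_map] at this
    exact this
  · simpa using ht

theorem UDetect.of_int {G : Type} [Group G] (φ : G →* Multiplicative ℤ) {t : G} (h : φ t ≠ 1) :
    UDetect G t := by
  let τ : Multiplicative ℤ →* DualNumber ℚ :=
    { toFun := fun z => 1 + ((Multiplicative.toAdd z : ℤ) : ℚ) • DualNumber.eps
      map_one' := by simp
      map_mul' := by
        intro a b
        simp only [toAdd_mul, Int.cast_add, add_smul]
        have : ∀ p q : ℚ, (1 + p • (DualNumber.eps : DualNumber ℚ)) * (1 + q • DualNumber.eps) =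
            1 + (p • DualNumber.eps + q • DualNumber.eps) := by
          intro p q
          simp [mul_add, add_mul, DualNumber.eps_mul_eps]
          ring
        rw [this] }
  refine ⟨DualNumber ℚ, inferInstance, inferInstance, τ.comp φ, 2, ?_, ?_⟩
  · intro l hl
    obtain ⟨a, b, rfl⟩ := List.length_eq_two.1 hl
    simp [τ, DualNumber.eps_mul_eps]
  · intro hcon
    have h1 : (Multiplicative.toAdd (φ t) : ℤ) = 0 := by
      have h2 := congrArg TrivSqZeroExt.snd hcon
      simpa [τ] using h2
    exact h (by
      have : φ t = Multiplicative.ofAdd (Multiplicative.toAdd (φ t)) := rfl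
      rw [this, h1]; rfl)

theorem fg_map' {G G' : Type*} [Group G] [Group G'] (f : G →* G') {K : Subgroup G} (h : K.FG) :
    (K.map f).FG := by
  classical
  obtain ⟨S, hS⟩ := h
  refine ⟨S.image f, ?_⟩
  rw [Finset.coe_image, ← MonoidHom.map_closure, hS]


end Pool.Agent.Helper277.ZG.Kos
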